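import Mathlib

/-!
# Closing-off, fragmentability, the finitary generator, weak topology
(universe polymorphic copy of `Helper68.WCG.{Closing, Slice, Gen, Weak}` of helper68)
-/

set_option autoImplicit false
set_option linter.style.haveILetI false
set_option linter.unusedSectionVars false

open Set Topology Metric

universe u v w

namespace Pool.Agent.Helper69.WLU

section closing

open Cardinal


variable {X : Type u}

/-- one closing-off step -/
def step (θ : Finset (X × ℚ × ℚ) → ℕ → X) (S : Set X) : Set X :=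
  S ∪ {x | ∃ F : Finset (X × ℚ × ℚ), (∀ p ∈ F, p.1 ∈ S) ∧ ∃ n, θ F n = x}

/-- the closure of `S` under `θ`. -/
def cl (θ : Finset (X × ℚ × ℚ) → ℕ → X) (S : Set X) : Set X :=
  ⋃ k : ℕ, (step θ)^[k] S

variable {θ : Finset (X × ℚ × ℚ) → ℕ → X}

theorem subset_step (S : Set X) : S ⊆ step θ S := subset_union_left

theorem step_mono {S T : Set X} (h : S ⊆ T) : step θ S ⊆ step θ T := by
  rintro x (hx | ⟨F, hF, n, hn⟩)
  · exact Or.inl (h hx)
  · exact Or.inr ⟨F, fun p hp => h (hF p hp), n, hn⟩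

theorem iter_mono (S : Set X) : Monotone fun k : ℕ => (step θ)^[k] S := by
  apply monotone_nat_of_le_succ
  intro k
  rw [Function.iterate_succ_apply']
  exact subset_step _

theorem subset_cl (S : Set X) : S ⊆ cl θ S := by
  intro x hx
  exact mem_iUnion.2 ⟨0, hx⟩

/-- being closed under `θ` -/
def Closed (θ : Finset (X × ℚ × ℚ) → ℕ → X) (T : Set X) : Prop :=
  ∀ F : Finset (X × ℚ × ℚ), (∀ p ∈ F, p.1 ∈ T) → ∀ n, θ F n ∈ T

theorem exists_bound {T : ℕ → Set X} (hT : Monotone T) (F : Finset (X × ℚ × ℚ))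
    (hF : ∀ p ∈ F, p.1 ∈ ⋃ k, T k) : ∃ k, ∀ p ∈ F, p.1 ∈ T k := by
  classical
  induction F using Finset.induction_on with
  | empty => exact ⟨0, by simp⟩
  | insert a F ha ih =>
    obtain ⟨k, hk⟩ := ih (fun p hp => hF p (Finset.mem_insert_of_mem hp))
    obtain ⟨m, hm⟩ := mem_iUnion.1 (hF a (Finset.mem_insert_self a F))
    refine ⟨max k m, fun p hp => ?_⟩
    rcases Finset.mem_insert.1 hp with rfl | hp
    · exact hT (le_max_right k m) hm
    · exact hT (le_max_left k m) (hk p hp)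

theorem closed_cl (S : Set X) : Closed θ (cl θ S) := by
  intro F hF n
  obtain ⟨k, hk⟩ := exists_bound (iter_mono S) F hF
  refine mem_iUnion.2 ⟨k + 1, ?_⟩
  rw [Function.iterate_succ_apply']
  exact Or.inr ⟨F, hk, n, rfl⟩

theorem cl_subset {S T : Set X} (h : S ⊆ T) (hT : Closed θ T) : cl θ S ⊆ T := by
  have : ∀ k : ℕ, (step θ)^[k] S ⊆ T := by
    intro k
    induction k with
    | zero => exact h
    | succ k ih =>
      rw [Function.iterate_succ_apply']
      rintro x (hx | ⟨F, hF, n, hn⟩)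
      · exact ih hx
      · rw [← hn]
        exact hT F (fun p hp => ih (hF p hp)) n
  exact iUnion_subset this

theorem cl_mono {S T : Set X} (h : S ⊆ T) : cl θ S ⊆ cl θ T :=
  cl_subset (h.trans (subset_cl T)) (closed_cl T)

/-- closures of directed unions. -/
theorem cl_subset_iUnion {ι : Type*} [Nonempty ι] {S : ι → Set X}
    (hd : Directed (· ⊆ ·) S) {T : Set X} (hT : T ⊆ ⋃ i, S i) :
    cl θ T ⊆ ⋃ i, cl θ (S i) := by
  apply cl_subset
  · refine hT.trans (iUnion_mono fun i => subset_cl _)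
  · intro F hF n
    have hdir : Directed (· ⊆ ·) fun i => cl θ (S i) := by
      intro i j
      obtain ⟨k, hk1, hk2⟩ := hd i j
      exact ⟨k, cl_mono hk1, cl_mono hk2⟩
    have : ∃ i, ∀ p ∈ F, p.1 ∈ cl θ (S i) := by
      classical
      induction F using Finset.induction_on with
      | empty => exact ⟨Classical.arbitrary ι, by simp⟩
      | insert a F ha ih =>
        obtain ⟨k, hk⟩ := ih (fun p hp => hF p (Finset.mem_insert_of_mem hp))
        obtain ⟨m, hm⟩ := mem_iUnion.1 (hF a (Finset.mem_insert_self a F))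
        obtain ⟨l, hl1, hl2⟩ := hdir k m
        refine ⟨l, fun p hp => ?_⟩
        rcases Finset.mem_insert.1 hp with rfl | hp
        · exact hl2 hm
        · exact hl1 (hk p hp)
    obtain ⟨i, hi⟩ := this
    exact mem_iUnion.2 ⟨i, closed_cl _ F hi n⟩

theorem mk_step_le {X : Type u} {θ : Finset (X × ℚ × ℚ) → ℕ → X} (S : Set X) :
    #(step θ S) ≤ max #S ℵ₀ := by
  classical
  -- the new part is a surjective image
  let φ : Finset (S × ℚ × ℚ) × ℕ → X := fun p =>
    θ (p.1.map ⟨fun s => ((s.1 : X), s.2), by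
      intro a b h
      simp only [Prod.mk.injEq] at h
      exact Prod.ext (Subtype.ext h.1) h.2⟩) p.2
  have hsub : step θ S ⊆ S ∪ range φ := by
    rintro x (hx | ⟨F, hF, n, hn⟩)
    · exact Or.inl hx
    · right
      refine ⟨(F.attach.map ⟨fun p => ((⟨p.1.1, hF p.1 p.2⟩ : S), p.1.2), by
        intro a b h
        simp only [Prod.mk.injEq, Subtype.mk.injEq] at h
        exact Subtype.ext (Prod.ext h.1 h.2)⟩, n), ?_⟩
      simp only [φ, Finset.map_map]
      rw [← hn]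
      congr 1
      ext p
      simp only [Finset.mem_map, Finset.mem_attach, Function.Embedding.trans_apply,
        true_and, Subtype.exists]
      constructor
      · rintro ⟨a, ha, rfl⟩
        exact ha
      · intro hp
        exact ⟨p, hp, rfl⟩
  have h1 : #(step θ S) ≤ #S + #(range φ) := (mk_le_mk_of_subset hsub).trans (mk_union_le _ _)
  have h2 : #(range φ) ≤ #(Finset (S × ℚ × ℚ) × ℕ) := mk_range_le
  have h3 : #(Finset (S × ℚ × ℚ) × ℕ) ≤ max #S ℵ₀ := by
    rw [mk_prod, lift_uzero, mk_nat, lift_aleph0]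
    rcases isEmpty_or_nonempty S with hS | hS
    · have : #(Finset (S × ℚ × ℚ)) = 1 := by
        rw [Cardinal.eq_one_iff_unique]
        constructor
        · constructor
          intro a b
          have ha : a = ∅ := Finset.eq_empty_of_isEmpty a
          have hb : b = ∅ := Finset.eq_empty_of_isEmpty b
          rw [ha, hb]
        · exact ⟨∅⟩
      rw [this, one_mul]
      exact le_max_right _ _
    · have hQ : #ℚ = ℵ₀ := Cardinal.mkRat
      have hQQ : #(ℚ × ℚ) = ℵ₀ := by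
        rw [mk_prod, lift_id, hQ, aleph0_mul_aleph0]
      rw [mk_finset_of_infinite, mk_prod, hQQ, lift_uzero, lift_aleph0, mul_assoc,
        aleph0_mul_aleph0]
      refine (mul_le_max _ _).trans ?_
      simp
  calc #(step θ S) ≤ #S + #(range φ) := h1
    _ ≤ max #S ℵ₀ + max #S ℵ₀ := add_le_add (le_max_left _ _) (h2.trans h3)
    _ = max #S ℵ₀ := add_eq_self (le_max_right _ _)

theorem mk_cl_le {X : Type u} {θ : Finset (X × ℚ × ℚ) → ℕ → X} (S : Set X) :
    #(cl θ S) ≤ max #S ℵ₀ := by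
  have h : ∀ k : ℕ, #((step θ)^[k] S : Set X) ≤ max #S ℵ₀ := by
    intro k
    induction k with
    | zero => exact le_max_left _ _
    | succ k ih =>
      rw [Function.iterate_succ_apply']
      refine (mk_step_le _).trans ?_
      exact max_le ih (le_max_right _ _)
  unfold cl
  have h1 := mk_iUnion_le_lift (fun k : ℕ => (step θ)^[k] S)
  simp only [lift_uzero, mk_nat, lift_aleph0] at h1
  refine h1.trans ?_
  have h2 : ⨆ i : ℕ, #((step θ)^[i] S : Set X) ≤ max #S ℵ₀ := ciSup_le' h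
  calc ℵ₀ * ⨆ i : ℕ, #((step θ)^[i] S : Set X) ≤ max #S ℵ₀ * max #S ℵ₀ :=
        mul_le_mul' (le_max_right _ _) h2
    _ = max #S ℵ₀ := mul_eq_self (le_max_right _ _)


end closing

section slice


variable {X : Type u} [NormedAddCommGroup X] [NormedSpace ℝ X]

/-- Rational box in the dual. -/
def box (F : Finset (X × ℚ × ℚ)) : Set (WeakDual ℝ X) :=
  {h | ∀ p ∈ F, (p.2.1 : ℝ) < h p.1 ∧ h p.1 < (p.2.2 : ℝ)}

theorem isOpen_box (F : Finset (X × ℚ × ℚ)) : IsOpen (box F) := by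
  have : box F = ⋂ p ∈ F, {h : WeakDual ℝ X | (p.2.1 : ℝ) < h p.1 ∧ h p.1 < (p.2.2 : ℝ)} := by
    ext h
    simp [box]
  rw [this]
  refine isOpen_biInter_finset fun p _ => ?_
  have hc : Continuous fun h : WeakDual ℝ X => h p.1 := WeakDual.eval_continuous p.1
  exact (isOpen_lt continuous_const hc).inter (isOpen_lt hc continuous_const)

/-- Separating a functional from a compact set by a box supported in `S`. -/
theorem box_sep {C : Set (WeakDual ℝ X)} (hC : IsCompact C) (f : WeakDual ℝ X) (S : Set X)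
    (h : ∀ g ∈ C, ∃ s ∈ S, g s ≠ f s) :
    ∃ F : Finset (X × ℚ × ℚ), (∀ p ∈ F, p.1 ∈ S) ∧ f ∈ box F ∧ ∀ g ∈ C, g ∉ box F := by
  classical
  have key : ∀ g ∈ C, ∃ p : X × ℚ × ℚ, p.1 ∈ S ∧ ((p.2.1 : ℝ) < f p.1 ∧ f p.1 < (p.2.2 : ℝ)) ∧
      {g' : WeakDual ℝ X | g' p.1 < (p.2.1 : ℝ) ∨ (p.2.2 : ℝ) < g' p.1} ∈ 𝓝 g := by
    intro g hg
    obtain ⟨s, hs, hne⟩ := h g hg
    have hc : Continuous fun h : WeakDual ℝ X => h s := WeakDual.eval_continuous s
    rcases lt_or_gt_of_ne hne with hlt | hgt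
    · obtain ⟨a, ha1, ha2⟩ := exists_rat_btwn hlt
      obtain ⟨b, hb⟩ := exists_rat_gt (f s)
      refine ⟨(s, a, b), hs, ⟨ha2, hb⟩, ?_⟩
      filter_upwards [(isOpen_lt hc continuous_const).mem_nhds ha1] with g' hg'
      exact Or.inl hg'
    · obtain ⟨b, hb1, hb2⟩ := exists_rat_btwn hgt
      obtain ⟨a, ha⟩ := exists_rat_lt (f s)
      refine ⟨(s, a, b), hs, ⟨ha, hb1⟩, ?_⟩
      filter_upwards [(isOpen_lt continuous_const hc).mem_nhds hb2] with g' hg'
      exact Or.inr hg'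
  choose! p hpS hpf hpn using key
  obtain ⟨t, htC, htcov⟩ := hC.elim_nhds_subcover _ hpn
  refine ⟨t.image p, ?_, ?_, ?_⟩
  · intro q hq
    obtain ⟨g, hg, rfl⟩ := Finset.mem_image.1 hq
    exact hpS g (htC g hg)
  · intro q hq
    obtain ⟨g, hg, rfl⟩ := Finset.mem_image.1 hq
    exact hpf g (htC g hg)
  · intro g hg hbox
    obtain ⟨g', hg't, hg'⟩ := mem_iUnion₂.1 (htcov hg)
    have := hbox (p g') (Finset.mem_image_of_mem p hg't)
    rcases hg' with h1 | h1
    · exact absurd this.1 (not_lt.2 h1.le)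
    · exact absurd this.2 (not_lt.2 h1.le)

/-- The seminorm of `A` is separable over countable subsets of `A`. -/
def AspSet (A : Set X) : Prop :=
  ∀ S ⊆ A, S.Countable → ∃ Z : Set (X →L[ℝ] ℝ), Z.Countable ∧
    ∀ f : X →L[ℝ] ℝ, ∀ ε > 0, ∃ z ∈ Z, ∀ a ∈ S, |f a - z a| ≤ ε

/-- Weak-star compact sets are fragmented by the seminorm of an Asplund set. -/
theorem frag {A : Set X} (hA : AspSet A) {C : Set (WeakDual ℝ X)} (hC : IsCompact C)
    (hne : C.Nonempty) {ε : ℝ} (hε : 0 < ε) :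
    ∃ U : Set (WeakDual ℝ X), IsOpen U ∧ (C ∩ U).Nonempty ∧
      ∀ f ∈ C ∩ U, ∀ g ∈ C ∩ U, ∀ a ∈ A, |f a - g a| ≤ ε := by
  classical
  by_contra hcon
  push Not at hcon
  -- witnesses
  have hwit : ∀ F : Finset (X × ℚ × ℚ), ∃ a ∈ A, (C ∩ box F).Nonempty →
      ∃ f ∈ C ∩ box F, ∃ g ∈ C ∩ box F, ε < |f a - g a| := by
    intro F
    by_cases hF : (C ∩ box F).Nonempty
    · obtain ⟨f, hf, g, hg, a, ha, h⟩ := hcon (box F) (isOpen_box F) hF
      exact ⟨a, ha, fun _ => ⟨f, hf, g, hg, h⟩⟩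
    · obtain ⟨f, hf, g, hg, a, ha, h⟩ := hcon univ isOpen_univ (by simpa using hne)
      exact ⟨a, ha, fun h => absurd h hF⟩
  choose w hwA hw using hwit
  let θ : Finset (X × ℚ × ℚ) → ℕ → X := fun F _ => w F
  let S : Set X := cl θ ∅
  have hSA : S ⊆ A := cl_subset (empty_subset _) (fun F _ _ => hwA F)
  have hScl : Closed θ S := closed_cl _
  have hSc : S.Countable := by
    have := mk_cl_le (θ := θ) (∅ : Set X)
    simp only [Cardinal.mk_eq_zero, zero_le, sup_of_le_right] at this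
    exact Cardinal.le_aleph0_iff_set_countable.1 this
  obtain ⟨Z, hZc, hZ⟩ := hA S hSA hSc
  -- restriction to S
  let r : WeakDual ℝ X → (S → ℝ) := fun h s => h s.1
  have hr : Continuous r := continuous_pi fun s => WeakDual.eval_continuous s.1
  let K : Set (S → ℝ) := r '' C
  have hK : IsCompact K := hC.image hr
  haveI : CompactSpace K := isCompact_iff_compactSpace.1 hK
  haveI : Nonempty K := (hne.image r).to_subtype
  haveI : Countable Z := hZc.to_subtype
  let T : Z → Set K := fun z => {k | ∀ s : S, |k.1 s - z.1 s.1| ≤ ε / 3}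
  have hTclosed : ∀ z, IsClosed (T z) := by
    intro z
    have : T z = ⋂ s : S, {k : K | |k.1 s - z.1 s.1| ≤ ε / 3} := by
      ext k
      simp [T]
    rw [this]
    refine isClosed_iInter fun s => ?_
    refine isClosed_le ?_ continuous_const
    exact (((continuous_apply s).comp continuous_subtype_val).sub continuous_const).abs
  have hTcov : ⋃ z, T z = univ := by
    refine eq_univ_of_forall fun k => ?_
    obtain ⟨h, hhC, hh⟩ := k.2
    obtain ⟨z, hz, hz2⟩ := hZ h (ε / 3) (by positivity)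
    refine mem_iUnion.2 ⟨⟨z, hz⟩, fun s => ?_⟩
    have := hz2 s.1 s.2
    rw [← hh]
    exact this
  obtain ⟨z, k0, hk0⟩ := nonempty_interior_of_iUnion_of_closed hTclosed hTcov
  -- the open set
  obtain ⟨O, hO, hOeq⟩ := isOpen_induced_iff.1 (isOpen_interior (s := T z))
  have hk0O : k0.1 ∈ O := by
    have : k0 ∈ Subtype.val ⁻¹' O := by rw [hOeq]; exact hk0
    exact this
  obtain ⟨h0, hh0C, hh0⟩ := k0.2
  -- compact set to be separated from `h0`
  let C' : Set (WeakDual ℝ X) := C ∩ r ⁻¹' Oᶜ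
  have hC' : IsCompact C' := hC.inter_right (hO.isClosed_compl.preimage hr)
  obtain ⟨F, hFS, hFf, hFC⟩ := box_sep hC' h0 S (by
    intro g hg
    by_contra hcon2
    push Not at hcon2
    have : r g = r h0 := funext fun s => hcon2 s.1 s.2
    apply hg.2
    show r g ∈ O
    rw [this, hh0]
    exact hk0O)
  have hmem : ∀ g ∈ C ∩ box F, ∀ s ∈ S, |g s - z.1 s| ≤ ε / 3 := by
    intro g hg s hs
    have hgO : r g ∈ O := by
      by_contra hn
      exact hFC g ⟨hg.1, hn⟩ hg.2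
    have : (⟨r g, ⟨g, hg.1, rfl⟩⟩ : K) ∈ Subtype.val ⁻¹' O := hgO
    rw [hOeq] at this
    have := interior_subset this
    exact this ⟨s, hs⟩
  obtain ⟨f, hf, g, hg, hlt⟩ := hw F ⟨h0, hh0C, hFf⟩
  have hwS : w F ∈ S := hScl F hFS 0
  have h1 := hmem f hf _ hwS
  have h2 := hmem g hg _ hwS
  have h3 : |f (w F) - g (w F)| ≤ ε / 3 + ε / 3 := by
    calc |f (w F) - g (w F)| = |(f (w F) - z.1 (w F)) - (g (w F) - z.1 (w F))| := by ring_nf
      _ ≤ |f (w F) - z.1 (w F)| + |g (w F) - z.1 (w F)| := abs_sub _ _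
      _ ≤ ε / 3 + ε / 3 := add_le_add h1 h2
  linarith


end slice

section gen


/-- Transfinite removal of open sets. -/
noncomputable def cs {W : Type u} (B : Set W) (U : Set W → Set W) (ξ : Ordinal.{u}) : Set W :=
  B ∩ ⋂ η : Set.Iio ξ, (U (cs B U η.1))ᶜ
termination_by ξ
decreasing_by exact η.2

section cs

variable {W : Type u} {B : Set W} {U : Set W → Set W}

theorem mem_cs {ξ : Ordinal.{u}} {x : W} :
    x ∈ cs B U ξ ↔ x ∈ B ∧ ∀ η < ξ, x ∉ U (cs B U η) := by
  rw [cs]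
  simp

theorem cs_anti {η ξ : Ordinal.{u}} (h : η ≤ ξ) : cs B U ξ ⊆ cs B U η := by
  intro x hx
  rw [mem_cs] at hx ⊢
  exact ⟨hx.1, fun ζ hζ => hx.2 ζ (hζ.trans_le h)⟩

theorem exists_cs_empty (hU : ∀ C, C ⊆ B → (∃ ξ, C = cs B U ξ) → C.Nonempty → (C ∩ U C).Nonempty) :
    ∃ ξ : Ordinal.{u}, cs B U ξ = ∅ := by
  by_contra hcon
  push Not at hcon
  have : ∀ ξ, ∃ x, x ∈ cs B U ξ ∩ U (cs B U ξ) := by
    intro ξ
    exact hU _ (fun x hx => (mem_cs.1 hx).1) ⟨ξ, rfl⟩ (hcon ξ)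
  choose g hg using this
  apply not_injective_of_ordinal g
  intro η ξ h
  by_contra hne
  rcases lt_or_gt_of_ne hne with hlt | hgt
  · have h1 := (mem_cs.1 (hg ξ).1).2 η hlt
    rw [← h] at h1
    exact h1 (hg η).2
  · have h1 := (mem_cs.1 (hg η).1).2 ξ hgt
    rw [h] at h1
    exact h1 (hg ξ).2

end cs

variable {X : Type u} [NormedAddCommGroup X] [NormedSpace ℝ X]

/-- The finitary generator. -/
theorem exists_gen {A : Set X} (hA : AspSet A) (N ε : ℝ) (hε : 0 < ε) :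
    ∃ g : Finset (X × ℚ × ℚ) → (X →L[ℝ] ℝ), ∀ S : Set X, ∀ f : X →L[ℝ] ℝ, ‖f‖ ≤ N →
      ∃ F, (∀ p ∈ F, p.1 ∈ S) ∧ ∀ a ∈ A, a ∈ closure S → |f a - g F a| ≤ ε := by
  classical
  let B : Set (WeakDual ℝ X) := WeakDual.toStrongDual ⁻¹' Metric.closedBall 0 N
  have hB : IsCompact B := WeakDual.isCompact_closedBall 0 N
  have hex : ∀ C : Set (WeakDual ℝ X), ∃ U : Set (WeakDual ℝ X), IsOpen U ∧
      (IsCompact C → C.Nonempty → (C ∩ U).Nonempty ∧
      ∀ f ∈ C ∩ U, ∀ g ∈ C ∩ U, ∀ a ∈ A, |f a - g a| ≤ ε) := by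
    intro C
    by_cases h : IsCompact C ∧ C.Nonempty
    · obtain ⟨U, hU, h1, h2⟩ := frag hA h.1 h.2 hε
      exact ⟨U, hU, fun _ _ => ⟨h1, h2⟩⟩
    · exact ⟨univ, isOpen_univ, fun h1 h2 => absurd ⟨h1, h2⟩ h⟩
  choose U hUo hU using hex
  have hcomp : ∀ ξ, IsCompact (cs B U ξ) := by
    intro ξ
    rw [cs]
    exact hB.inter_right (isClosed_iInter fun η => (hUo _).isClosed_compl)
  obtain ⟨ξ1, hξ1⟩ : ∃ ξ : Ordinal.{u}, cs B U ξ = ∅ := by
    apply exists_cs_empty
    rintro C - ⟨ξ, rfl⟩ hne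
    exact (hU _ (hcomp ξ) hne).1
  -- the ordinal attached to a box
  let good : Finset (X × ℚ × ℚ) → Set Ordinal.{u} := fun F =>
    {η | ∀ h ∈ cs B U η, h ∉ U (cs B U η) → h ∉ box F}
  let o : Finset (X × ℚ × ℚ) → Ordinal.{u} := fun F => sInf (good F)
  let g : Finset (X × ℚ × ℚ) → (X →L[ℝ] ℝ) := fun F =>
    if h : (cs B U (o F) ∩ U (cs B U (o F))).Nonempty then WeakDual.toStrongDual h.some else 0
  refine ⟨g, fun S f hf => ?_⟩
  -- functional as a weak star element
  let f' : WeakDual ℝ X := StrongDual.toWeakDual f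
  have hf'B : f' ∈ B := by
    show WeakDual.toStrongDual f' ∈ Metric.closedBall 0 N
    rw [mem_closedBall_zero_iff]
    exact hf
  have hf'app : ∀ x, f' x = f x := fun x => rfl
  let E : Ordinal.{u} → Set (WeakDual ℝ X) := fun ξ => {h | h ∈ cs B U ξ ∧ ∀ s ∈ S, h s = f s}
  have hEclosed : ∀ ξ, IsCompact (E ξ) := by
    intro ξ
    have : E ξ = cs B U ξ ∩ ⋂ s ∈ S, {h : WeakDual ℝ X | h s = f s} := by
      ext h
      simp [E]
    rw [this]
    refine (hcomp ξ).inter_right ?_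
    refine isClosed_biInter fun s _ => ?_
    exact isClosed_eq (WeakDual.eval_continuous s) continuous_const
  have hEanti : ∀ η ξ, η ≤ ξ → E ξ ⊆ E η := fun η ξ h x hx => ⟨cs_anti h hx.1, hx.2⟩
  let emp : Set Ordinal.{u} := {ξ | E ξ = ∅}
  have hemp : emp.Nonempty := by
    refine ⟨ξ1, ?_⟩
    show E ξ1 = ∅
    rw [eq_empty_iff_forall_notMem]
    intro x hx
    have := hx.1
    rw [hξ1] at this
    exact this
  let ξ0 := sInf emp
  have hξ0 : E ξ0 = ∅ := csInf_mem hemp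
  have hlt0 : ∀ ξ < ξ0, (E ξ).Nonempty := by
    intro ξ hξ
    rw [nonempty_iff_ne_empty]
    intro h
    exact notMem_of_lt_csInf' hξ h
  have hpos : 0 < ξ0 := by
    rcases eq_or_lt_of_le (zero_le (a := ξ0)) with h | h
    · exfalso
      have h1 : f' ∈ E ξ0 := by
        rw [← h]
        refine ⟨?_, fun s _ => rfl⟩
        rw [mem_cs]
        exact ⟨hf'B, fun η hη => absurd hη (not_lt.2 (zero_le (a := η)))⟩
      rw [hξ0] at h1
      exact h1
    · exact h
  -- there is a last stage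
  obtain ⟨ξ, hξlt, hξ⟩ : ∃ ξ < ξ0, ∀ h ∈ E ξ, h ∈ U (cs B U ξ) := by
    by_contra hcon
    push Not at hcon
    haveI : Nonempty (Set.Iio ξ0) := ⟨⟨0, hpos⟩⟩
    let T : Set.Iio ξ0 → Set (WeakDual ℝ X) := fun η => E η.1 ∩ (U (cs B U η.1))ᶜ
    have hT : (⋂ i, T i).Nonempty := by
      apply IsCompact.nonempty_iInter_of_directed_nonempty_isCompact_isClosed T
      · intro η ζ
        -- decreasing
        have key : ∀ a b : Set.Iio ξ0, a.1 ≤ b.1 → T b ⊆ T a := by
          intro a b hab x hx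
          rcases eq_or_lt_of_le hab with h | h
          · have : a = b := Subtype.ext h
            rw [this]
            exact hx
          · exact ⟨hEanti _ _ hab hx.1, (mem_cs.1 hx.1.1).2 _ h⟩
        rcases le_total η.1 ζ.1 with h | h
        · exact ⟨ζ, key η ζ h, fun x hx => hx⟩
        · exact ⟨η, fun x hx => hx, key ζ η h⟩
      · intro η
        obtain ⟨h, hh, hh2⟩ := hcon η.1 η.2
        exact ⟨h, hh, hh2⟩
      · intro η
        exact (hEclosed _).inter_right (hUo _).isClosed_compl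
      · intro η
        exact ((hEclosed _).inter_right (hUo _).isClosed_compl).isClosed
    obtain ⟨h, hh⟩ := hT
    rw [mem_iInter] at hh
    have h0 := hh ⟨0, hpos⟩
    have : h ∈ E ξ0 := by
      refine ⟨?_, h0.1.2⟩
      rw [mem_cs]
      exact ⟨(mem_cs.1 h0.1.1).1, fun η hη => (hh ⟨η, hη⟩).2⟩
    rw [hξ0] at this
    exact this
  obtain ⟨fe, hfe⟩ := hlt0 ξ hξlt
  -- separate by a box
  have hC1 : IsCompact (cs B U ξ ∩ (U (cs B U ξ))ᶜ) :=
    (hcomp ξ).inter_right (hUo _).isClosed_compl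
  obtain ⟨F, hFS, hFf, hFC⟩ := box_sep hC1 f' S (by
    intro h hh
    by_contra hcon
    push Not at hcon
    exact hh.2 (hξ h ⟨hh.1, fun s hs => hcon s hs⟩))
  refine ⟨F, hFS, ?_⟩
  have hmemgood : ξ ∈ good F := fun h hh hn => hFC h ⟨hh, hn⟩
  have hoF : o F = ξ := by
    have hle : o F ≤ ξ := csInf_le' hmemgood
    rcases eq_or_lt_of_le hle with h | h
    · exact h
    · exfalso
      have hgo : o F ∈ good F := csInf_mem ⟨ξ, hmemgood⟩
      have h1 : fe ∈ cs B U (o F) := cs_anti hle hfe.1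
      have h2 : fe ∉ U (cs B U (o F)) := (mem_cs.1 hfe.1).2 _ h
      apply hgo fe h1 h2
      intro p hp
      rw [hfe.2 p.1 (hFS p hp)]
      exact hFf p hp
  have hne : (cs B U (o F) ∩ U (cs B U (o F))).Nonempty := by
    rw [hoF]
    exact ⟨fe, hfe.1, hξ fe hfe⟩
  intro a ha haS
  have hg : g F a = hne.some a := by
    simp only [g, dif_pos hne]
    rfl
  have h1 : |fe a - hne.some a| ≤ ε := by
    have hUU := (hU _ (hcomp (o F)) ⟨_, hne.some_mem.1⟩).2
    refine hUU fe ?_ _ hne.some_mem a ha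
    rw [hoF]
    exact ⟨hfe.1, hξ fe hfe⟩
  have h2 : f a = fe a := by
    have hcl : IsClosed {x : X | f x = fe x} :=
      isClosed_eq f.continuous (WeakDual.toStrongDual fe).continuous
    have hsub : S ⊆ {x : X | f x = fe x} := fun s hs => (hfe.2 s hs).symm
    exact closure_minimal hsub hcl haS
  rw [hg, h2]
  exact h1


end gen

section weak

open Filter


variable {X : Type u} [NormedAddCommGroup X] [NormedSpace ℝ X]

theorem weak_nhds {U : Set (WeakSpace ℝ X)} (hU : U ∈ 𝓝 (0 : WeakSpace ℝ X)) :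
    ∃ (t : Finset (X →L[ℝ] ℝ)) (ε : ℝ), 0 < ε ∧
      ∀ x : X, (∀ f ∈ t, |f x| < ε) → toWeakSpace ℝ X x ∈ U := by
  let g : WeakSpace ℝ X → ((X →L[ℝ] ℝ) → ℝ) := fun x f => (topDualPairing ℝ X).flip x f
  have h1 : 𝓝 (0 : WeakSpace ℝ X) = Filter.comap g (𝓝 (g 0)) := nhds_induced g 0
  rw [h1, mem_comap] at hU
  obtain ⟨V, hV, hVU⟩ := hU
  rw [nhds_pi, Filter.mem_pi] at hV
  obtain ⟨I, hI, t, ht, htV⟩ := hV
  have hg0 : ∀ f, g 0 f = 0 := fun f => map_zero f
  have h2 : ∀ f : X →L[ℝ] ℝ, ∃ ε : ℝ, 0 < ε ∧ ball 0 ε ⊆ t f := by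
    intro f
    have := ht f
    rw [hg0] at this
    exact Metric.mem_nhds_iff.1 this
  choose e he0 he using h2
  classical
  obtain ⟨ε, hε, hεle⟩ : ∃ ε : ℝ, 0 < ε ∧ ∀ f ∈ hI.toFinset, ε ≤ e f := by
    rcases hI.toFinset.eq_empty_or_nonempty with h | h
    · exact ⟨1, one_pos, by simp [h]⟩
    · obtain ⟨f0, hf0, hmin⟩ := hI.toFinset.exists_min_image e h
      exact ⟨e f0, he0 f0, hmin⟩
  refine ⟨hI.toFinset, ε, hε, fun x hx => hVU ?_⟩
  apply htV
  intro f hf
  apply he f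
  rw [mem_ball_zero_iff, Real.norm_eq_abs]
  have hfin : f ∈ hI.toFinset := by simpa using hf
  exact (hx f hfin).trans_le (hεle f hfin)

/-- A union of compact sets shrinking to a point is compact. -/
theorem compact_union {W ι : Type*} [TopologicalSpace W] (x0 : W) (K : ι → Set W)
    (hK : ∀ i, IsCompact (K i)) (h : ∀ U ∈ 𝓝 x0, {i | ¬ K i ⊆ U}.Finite) :
    IsCompact ({x0} ∪ ⋃ i, K i) := by
  rw [isCompact_iff_ultrafilter_le_nhds]
  intro F hF
  by_cases hx : (F : Filter W) ≤ 𝓝 x0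
  · exact ⟨x0, Or.inl rfl, hx⟩
  · rw [Filter.not_le] at hx
    obtain ⟨U, hU, hUF⟩ := hx
    have hUc : Uᶜ ∈ (F : Filter W) := Ultrafilter.compl_mem_iff_notMem.2 hUF
    have hfin := h U hU
    have hcomp : IsCompact (⋃ i ∈ {i | ¬ K i ⊆ U}, K i) := hfin.isCompact_biUnion fun i _ => hK i
    have hmem : (⋃ i ∈ {i | ¬ K i ⊆ U}, K i) ∈ (F : Filter W) := by
      filter_upwards [hUc, le_principal_iff.1 hF] with y hy1 hy2
      rcases hy2 with rfl | hy2
      · exact absurd (mem_of_mem_nhds hU) hy1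
      · obtain ⟨i, hi⟩ := mem_iUnion.1 hy2
        simp only [mem_iUnion]
        exact ⟨i, fun hsub => hy1 (hsub hi), hi⟩
    obtain ⟨y, hy, hle⟩ := isCompact_iff_ultrafilter_le_nhds.1 hcomp F (le_principal_iff.2 hmem)
    refine ⟨y, ?_, hle⟩
    right
    simp only [mem_iUnion] at hy
    obtain ⟨i, -, hi⟩ := hy
    exact mem_iUnion.2 ⟨i, hi⟩

/-- Images of weakly compact sets are weakly compact. -/
theorem weak_image {Y : Type v} [NormedAddCommGroup Y] [NormedSpace ℝ Y] (f : X →L[ℝ] Y)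
    {K : Set X} (hK : IsCompact (toWeakSpace ℝ X '' K)) :
    IsCompact (toWeakSpace ℝ Y '' (f '' K)) := by
  have : toWeakSpace ℝ Y '' (f '' K) = WeakSpace.map f '' (toWeakSpace ℝ X '' K) := by
    rw [image_image, image_image]
    rfl
  rw [this]
  exact hK.image (WeakSpace.map f).continuous

/-- Norm compact sets are weakly compact. -/
theorem weak_of_norm {K : Set X} (hK : IsCompact K) : IsCompact (toWeakSpace ℝ X '' K) := by
  have : toWeakSpace ℝ X '' K = toWeakSpaceCLM ℝ X '' K := rfl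
  rw [this]
  exact hK.image (toWeakSpaceCLM ℝ X).continuous

theorem AspSet.image {Y : Type v} [NormedAddCommGroup Y] [NormedSpace ℝ Y] {A : Set X}
    (hA : AspSet A) (R : X →L[ℝ] Y) : AspSet (closure (R '' A)) := by
  intro S hS hSc
  -- approximate S by images of a countable subset of A
  have h1 : ∀ s ∈ S, ∃ T : Set X, T ⊆ A ∧ T.Countable ∧ s ∈ closure (R '' T) := by
    intro s hs
    have hs' := hS hs
    rw [mem_closure_iff_seq_limit] at hs'
    obtain ⟨x, hx, hlim⟩ := hs'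
    choose a ha hax using hx
    refine ⟨range a, ?_, countable_range a, ?_⟩
    · rintro _ ⟨n, rfl⟩
      exact ha n
    · rw [mem_closure_iff_seq_limit]
      exact ⟨x, fun n => ⟨a n, ⟨n, rfl⟩, hax n⟩, hlim⟩
  choose! T hTA hTc hT using h1
  let S0 : Set X := ⋃ s ∈ S, T s
  have hS0A : S0 ⊆ A := iUnion₂_subset hTA
  have hS0c : S0.Countable := hSc.biUnion hTc
  have hS0 : S ⊆ closure (R '' S0) := by
    intro s hs
    refine closure_mono (image_mono ?_) (hT s hs)
    exact subset_biUnion_of_mem hs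
  obtain ⟨Z, hZc, hZ⟩ := hA S0 hS0A hS0c
  -- choose functionals on Y
  have h2 : ∀ (z : X →L[ℝ] ℝ) (n : ℕ), ∃ h : Y →L[ℝ] ℝ,
      (∃ h' : Y →L[ℝ] ℝ, ∀ a ∈ S0, |h' (R a) - z a| ≤ 1 / ((n : ℝ) + 1)) →
        ∀ a ∈ S0, |h (R a) - z a| ≤ 1 / ((n : ℝ) + 1) := by
    intro z n
    by_cases hex : ∃ h' : Y →L[ℝ] ℝ, ∀ a ∈ S0, |h' (R a) - z a| ≤ 1 / ((n : ℝ) + 1)
    · obtain ⟨h, hh⟩ := hex
      exact ⟨h, fun _ => hh⟩
    · exact ⟨0, fun h => absurd h hex⟩
  choose H hH using h2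
  refine ⟨⋃ z ∈ Z, range (H z), hZc.biUnion fun z _ => countable_range _, ?_⟩
  intro f ε hε
  obtain ⟨n, hn⟩ := exists_nat_one_div_lt (half_pos hε)
  obtain ⟨z, hz, hfz⟩ := hZ (f.comp R) (1 / ((n : ℝ) + 1)) (by positivity)
  have h3 := hH z n ⟨f, hfz⟩
  refine ⟨H z n, ?_, ?_⟩
  · simp only [mem_iUnion]
    exact ⟨z, hz, n, rfl⟩
  · intro y hy
    have hcl : IsClosed {y : Y | |f y - H z n y| ≤ ε} :=
      isClosed_le ((f.continuous.sub (H z n).continuous).abs) continuous_const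
    refine closure_minimal ?_ hcl (hS0 hy)
    rintro _ ⟨a, ha, rfl⟩
    have h4 := hfz a ha
    have h5 := h3 a ha
    show |f (R a) - H z n (R a)| ≤ ε
    have h6 : (f.comp R) a = f (R a) := rfl
    rw [h6] at h4
    calc |f (R a) - H z n (R a)| = |(f (R a) - z a) - (H z n (R a) - z a)| := by ring_nf
      _ ≤ |f (R a) - z a| + |H z n (R a) - z a| := abs_sub _ _
      _ ≤ ε := by linarith


end weak

end Pool.Agent.Helper69.WLU
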