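import Mathlib
import Pool.Agent.Helper69.WLU.Base

/-!
# Asplund generated spaces with Corson compact dual ball are WCG
(frame of `Helper68.WCG.{Model, Main}` of helper68, with the linearly dense set which countably supports the
dual replaced by a Corson compact dual ball)
-/

set_option autoImplicit false
set_option linter.style.haveILetI false
set_option linter.unusedSectionVars false

open Set Topology Metric Filter Cardinal

universe u v w

namespace Pool.Agent.Helper69.WLU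

section corson



variable {X : Type u} [NormedAddCommGroup X] [NormedSpace ℝ X]

/-- Coordinates which embed the dual ball into a Sigma-product. -/
structure CorsonData (X : Type u) [NormedAddCommGroup X] [NormedSpace ℝ X] where
  Δ : Type w
  h : (X →L[ℝ] ℝ) → Δ → ℝ
  cnt : ∀ f : X →L[ℝ] ℝ, ‖f‖ ≤ 1 → {δ | h f δ ≠ 0}.Countable
  inj : ∀ f g : X →L[ℝ] ℝ, ‖f‖ ≤ 1 → ‖g‖ ≤ 1 → (∀ δ, h f δ = h g δ) → f = g
  cont : ∀ δ, ContinuousOn (fun f : WeakDual ℝ X => h (WeakDual.toStrongDual f) δ)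
    (WeakDual.toStrongDual ⁻¹' closedBall 0 1)

/-- Every coordinate depends on countably many points of `X` only. -/
theorem CorsonData.dep (c : CorsonData X) (δ : c.Δ) : ∃ S : Set X, S.Countable ∧
    ∀ f g : X →L[ℝ] ℝ, ‖f‖ ≤ 1 → ‖g‖ ≤ 1 → (∀ x ∈ S, f x = g x) → c.h f δ = c.h g δ := by
  classical
  let B : Set (WeakDual ℝ X) := WeakDual.toStrongDual ⁻¹' closedBall 0 1
  have hB : IsCompact B := WeakDual.isCompact_closedBall 0 1
  let u : WeakDual ℝ X → ℝ := fun f => c.h (WeakDual.toStrongDual f) δ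
  have hu : ContinuousOn u B := c.cont δ
  have hcl : ∀ n : ℕ, IsCompact ((B ×ˢ B) ∩
      (fun p : WeakDual ℝ X × WeakDual ℝ X => |u p.1 - u p.2|) ⁻¹' Ici (1 / ((n : ℝ) + 1))) := by
    intro n
    have h1 : ContinuousOn (fun p : WeakDual ℝ X × WeakDual ℝ X => |u p.1 - u p.2|) (B ×ˢ B) := by
      refine ContinuousOn.abs (ContinuousOn.sub ?_ ?_)
      · exact hu.comp continuousOn_fst (fun p hp => hp.1)
      · exact hu.comp continuousOn_snd (fun p hp => hp.2)
    exact (hB.prod hB).of_isClosed_subset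
      (h1.preimage_isClosed_of_isClosed (hB.prod hB).isClosed isClosed_Ici) inter_subset_left
  have hcov : ∀ n : ℕ, ∃ t : Finset X, ((B ×ˢ B) ∩
      (fun p : WeakDual ℝ X × WeakDual ℝ X => |u p.1 - u p.2|) ⁻¹' Ici (1 / ((n : ℝ) + 1))) ⊆
      ⋃ x ∈ t, {p : WeakDual ℝ X × WeakDual ℝ X | p.1 x ≠ p.2 x} := by
    intro n
    refine (hcl n).elim_finite_subcover _ (fun x => ?_) ?_
    · exact isOpen_ne_fun ((WeakDual.eval_continuous x).comp continuous_fst)
        ((WeakDual.eval_continuous x).comp continuous_snd)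
    · rintro p ⟨-, hp⟩
      by_contra hcon
      simp only [mem_iUnion, mem_ofPred_eq, not_exists, not_not] at hcon
      have : p.1 = p.2 := DFunLike.ext _ _ hcon
      have h2 : (1 / ((n : ℝ) + 1)) ≤ |u p.1 - u p.2| := hp
      rw [this, sub_self, abs_zero] at h2
      have : (0 : ℝ) < 1 / ((n : ℝ) + 1) := by positivity
      linarith
  choose t ht using hcov
  refine ⟨⋃ n, (t n : Set X), countable_iUnion fun n => (t n).countable_toSet, ?_⟩
  intro f g hf hg hfg
  by_contra hne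
  have hpos : 0 < |c.h f δ - c.h g δ| := abs_pos.2 (sub_ne_zero.2 hne)
  obtain ⟨n, hn⟩ := exists_nat_one_div_lt hpos
  have hfB : (StrongDual.toWeakDual f) ∈ B := mem_closedBall_zero_iff.2 hf
  have hgB : (StrongDual.toWeakDual g) ∈ B := mem_closedBall_zero_iff.2 hg
  have hmem := ht n (a := ((StrongDual.toWeakDual f), (StrongDual.toWeakDual g)))
    ⟨⟨hfB, hgB⟩, hn.le⟩
  simp only [mem_iUnion] at hmem
  obtain ⟨x, hx, hxne⟩ := hmem
  exact hxne (hfg x (mem_iUnion.2 ⟨n, hx⟩))

/-- Approximation of a point by the span of a set which separates a compact convex symmetric set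
of functionals from `0`. -/
theorem approx_pt {Z : Set (WeakDual ℝ X)} (hZ : IsCompact Z) (hconv : Convex ℝ Z)
    (hsym : ∀ z ∈ Z, -z ∈ Z) (hne : Z.Nonempty) {C : Set X}
    (hinj : ∀ z ∈ Z, (∀ x ∈ C, z x = 0) → z = 0) (x : X) {ε : ℝ} (hε : 0 < ε) :
    ∃ v ∈ Submodule.span ℝ C, ∀ z ∈ Z, |z x - z v| ≤ ε := by
  classical
  have hK : IsCompact (Z ∩ {z | ε ≤ |z x|}) :=
    hZ.inter_right (isClosed_le continuous_const (WeakDual.eval_continuous x).abs)
  obtain ⟨b, hbC, hbf, hb⟩ := hK.elim_finite_subcover_image (b := C)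
    (c := fun y => {z : WeakDual ℝ X | z y ≠ 0})
    (fun y _ => isOpen_ne_fun (WeakDual.eval_continuous y) continuous_const) (by
      rintro z ⟨hz, hzx⟩
      by_contra hcon
      simp only [mem_iUnion, mem_ofPred_eq, not_exists, not_not] at hcon
      have h0 := hinj z hz (fun y hy => hcon y hy)
      have h1 : ε ≤ |z x| := hzx
      have h2 : z x = 0 := by rw [h0]; rfl
      rw [h2, abs_zero] at h1
      linarith)
  haveI : Fintype b := hbf.fintype
  let Φ : WeakDual ℝ X →ₗ[ℝ] ℝ × (b → ℝ) :=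
    { toFun := fun z => (z x, fun y => z y.1)
      map_add' := fun z w => rfl
      map_smul' := fun r z => rfl }
  have hΦ : Continuous Φ := by
    refine Continuous.prodMk (WeakDual.eval_continuous x) ?_
    exact continuous_pi fun y => WeakDual.eval_continuous y.1
  have hWc : IsClosed (Φ '' Z) := (hZ.image hΦ).isClosed
  have hWconv : Convex ℝ (Φ '' Z) := hconv.linear_image Φ
  have hnot : ((ε, 0) : ℝ × (b → ℝ)) ∉ Φ '' Z := by
    rintro ⟨z, hz, hzΦ⟩
    have h1 : z x = ε := congrArg Prod.fst hzΦ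
    have h2 : ∀ y : b, z y.1 = 0 := fun y => congrFun (congrArg Prod.snd hzΦ) y
    have h3 := hb ⟨hz, by rw [mem_ofPred_eq, h1]; exact le_abs_self ε⟩
    simp only [mem_iUnion] at h3
    obtain ⟨y, hy, hyne⟩ := h3
    exact hyne (h2 ⟨y, hy⟩)
  obtain ⟨f, u, hf1, hf2⟩ := geometric_hahn_banach_closed_point hWconv hWc hnot
  set α : ℝ := f (1, 0) with hα
  set β : b → ℝ := fun y => f (0, fun j => if y = j then 1 else 0) with hβ
  have hfval : ∀ (a : ℝ) (t : b → ℝ), f (a, t) = α * a + ∑ y, t y * β y := by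
    intro a t
    have h1 : ((a, t) : ℝ × (b → ℝ)) = a • ((1, 0) : ℝ × (b → ℝ)) + (0, t) := by
      ext <;> simp
    rw [h1, map_add, map_smul]
    have h2 := LinearMap.pi_apply_eq_sum_univ
      ((f : ℝ × (b → ℝ) →ₗ[ℝ] ℝ).comp (LinearMap.inr ℝ ℝ (b → ℝ))) t
    have h3 : f (0, t) = ∑ y, t y * β y := by
      have h4 : ((f : ℝ × (b → ℝ) →ₗ[ℝ] ℝ).comp (LinearMap.inr ℝ ℝ (b → ℝ))) t = f (0, t) := rfl
      rw [← h4, h2]
      rfl
    rw [h3, smul_eq_mul, hα]
    ring
  have hsm : ∀ z ∈ Z, |α * z x + ∑ y : b, z y.1 * β y| < u := by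
    intro z hz
    rw [abs_lt]
    have h1 := hf1 _ ⟨z, hz, rfl⟩
    have h2 := hf1 _ ⟨-z, hsym z hz, rfl⟩
    have e1 : f (Φ z) = α * z x + ∑ y : b, z y.1 * β y := hfval _ _
    have e2 : f (Φ (-z)) = -(α * z x + ∑ y : b, z y.1 * β y) := by
      rw [map_neg, map_neg, e1]
    rw [e1] at h1
    rw [e2] at h2
    exact ⟨by linarith, h1⟩
  have hu0 : 0 < u := by
    obtain ⟨z, hz⟩ := hne
    exact (abs_nonneg _).trans_lt (hsm z hz)
  have hαε : u < α * ε := by
    have := hfval ε 0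
    rw [this] at hf2
    simpa using hf2
  have hαpos : 0 < α := by
    by_contra hcon
    push Not at hcon
    have : α * ε ≤ 0 := mul_nonpos_of_nonpos_of_nonneg hcon hε.le
    linarith
  refine ⟨-∑ y : b, (β y / α) • (y.1 : X), ?_, ?_⟩
  · refine Submodule.neg_mem _ (Submodule.sum_mem _ fun y _ => ?_)
    exact Submodule.smul_mem _ _ (Submodule.subset_span (hbC y.2))
  · intro z hz
    have e : z x - z (-∑ y : b, (β y / α) • (y.1 : X)) =
        (α * z x + ∑ y : b, z y.1 * β y) / α := by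
      rw [map_neg, map_sum, sub_neg_eq_add, add_div, mul_div_cancel_left₀ _ hαpos.ne',
        Finset.sum_div]
      congr 1
      refine Finset.sum_congr rfl fun y _ => ?_
      rw [map_smul, smul_eq_mul]
      ring
    rw [e, abs_div, abs_of_pos hαpos, div_le_iff₀ hαpos]
    have := hsm z hz
    nlinarith

/-- Exact representation of a point on a norming compact convex symmetric set of functionals. -/
theorem exists_rep [CompleteSpace X] {Z : Set (WeakDual ℝ X)} (hZ : IsCompact Z)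
    (hconv : Convex ℝ Z) (hsym : ∀ z ∈ Z, -z ∈ Z) (hne : Z.Nonempty) (V : Submodule ℝ X)
    (hV : IsClosed (V : Set X)) (hinj : ∀ z ∈ Z, (∀ x ∈ V, z x = 0) → z = 0)
    (hnorm : ∀ v ∈ V, ∀ r : ℝ, (∀ z ∈ Z, |z v| ≤ r) → ‖v‖ ≤ r) (x : X) :
    ∃ v ∈ V, ∀ z ∈ Z, z v = z x := by
  have h1 : ∀ n : ℕ, ∃ v ∈ V, ∀ z ∈ Z, |z x - z v| ≤ 1 / ((n : ℝ) + 1) := by
    intro n
    obtain ⟨v, hv, hvz⟩ := approx_pt hZ hconv hsym hne (C := (V : Set X)) hinj x
      (ε := 1 / ((n : ℝ) + 1)) (by positivity)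
    rw [Submodule.span_eq] at hv
    exact ⟨v, hv, hvz⟩
  choose v hvV hv using h1
  have hcau : CauchySeq v := by
    refine cauchySeq_of_le_tendsto_0 (fun n : ℕ => 2 * (1 / ((n : ℝ) + 1))) ?_ ?_
    · intro n m N hn hm
      rw [dist_eq_norm]
      apply hnorm _ (V.sub_mem (hvV n) (hvV m))
      intro z hz
      have e : z (v n - v m) = (z x - z (v m)) - (z x - z (v n)) := by
        rw [map_sub]; ring
      rw [e]
      have hn' : 1 / ((n : ℝ) + 1) ≤ 1 / ((N : ℝ) + 1) := by
        have : (N : ℝ) ≤ n := by exact_mod_cast hn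
        gcongr
      have hm' : 1 / ((m : ℝ) + 1) ≤ 1 / ((N : ℝ) + 1) := by
        have : (N : ℝ) ≤ m := by exact_mod_cast hm
        gcongr
      calc |(z x - z (v m)) - (z x - z (v n))| ≤ |z x - z (v m)| + |z x - z (v n)| := abs_sub _ _
        _ ≤ 1 / ((m : ℝ) + 1) + 1 / ((n : ℝ) + 1) := add_le_add (hv m z hz) (hv n z hz)
        _ ≤ 2 * (1 / ((N : ℝ) + 1)) := by linarith
    · have := (tendsto_one_div_add_atTop_nhds_zero_nat (𝕜 := ℝ)).const_mul 2
      rwa [mul_zero] at this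
  obtain ⟨w, hw⟩ := cauchySeq_tendsto_of_complete hcau
  refine ⟨w, hV.mem_of_tendsto hw (Eventually.of_forall hvV), ?_⟩
  intro z hz
  have hzc : Continuous fun y : X => z y := (WeakDual.toStrongDual z).continuous
  have h2 : Tendsto (fun n => z (v n)) atTop (𝓝 (z w)) := (hzc.tendsto w).comp hw
  have h3 : Tendsto (fun n => z (v n)) atTop (𝓝 (z x)) := by
    rw [tendsto_iff_norm_sub_tendsto_zero]
    refine squeeze_zero (fun _ => norm_nonneg _) (fun n => ?_)
      (tendsto_one_div_add_atTop_nhds_zero_nat (𝕜 := ℝ))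
    rw [Real.norm_eq_abs, abs_sub_comm]
    exact hv n z hz
  exact tendsto_nhds_unique h2 h3


end corson

section models



variable {X : Type u} [NormedAddCommGroup X] [NormedSpace ℝ X]

/-- Standing hypotheses on a set `A` (closed absolutely convex bounded Asplund set, linearly dense)
in a space with Corson dual ball. -/
structure GoodC (A : Set X) : Prop where
  closed : IsClosed A
  convex : Convex ℝ A
  symm : ∀ a ∈ A, -a ∈ A
  zero : (0 : X) ∈ A
  bdd : ∃ R : ℝ, ∀ a ∈ A, ‖a‖ ≤ R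
  dense : Dense (Submodule.span ℝ A : Set X)
  asp : AspSet A
  cor : Nonempty (CorsonData.{u, w} X)

/-- A system of functionals and points attached to finite data. -/
structure SysC (c : CorsonData X) (S : c.Δ → Set X) (A : Set X) where
  Ψ : Finset (X × ℚ × ℚ) → Set (X →L[ℝ] ℝ)
  θ : Finset (X × ℚ × ℚ) → ℕ → X
  comb : ∀ F, ∃ n, θ F n = ∑ p ∈ F, (p.2.1 : ℝ) • p.1
  mono : ∀ F F', F ⊆ F' → Ψ F ⊆ Ψ F'
  zero : ∀ F, (0 : X →L[ℝ] ℝ) ∈ Ψ F
  add : ∀ F, ∀ f ∈ Ψ F, ∀ g ∈ Ψ F, f + g ∈ Ψ F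
  smul : ∀ F, ∀ q : ℚ, ∀ f ∈ Ψ F, (q : ℝ) • f ∈ Ψ F
  supp : ∀ F, ∀ f ∈ Ψ F, ‖f‖ ≤ 1 → ∀ δ, c.h f δ ≠ 0 → ∀ x ∈ S δ, ∃ n, θ F n = x
  norming : ∀ x, ∃ f ∈ Ψ {(x, 1, 1)}, ‖f‖ ≤ 1 ∧ f x = ‖x‖
  sep : ∀ (x : X) (n : ℕ), Disjoint (ball x (1 / ((n : ℝ) + 1))) A →
    ∃ f ∈ Ψ {(x, 1, 1)}, ∃ u : ℝ, (∀ b ∈ ball x (1 / ((n : ℝ) + 1)), f b < u) ∧ ∀ a ∈ A, u ≤ f a
  approx : ∀ (T : Set X) (f : X →L[ℝ] ℝ) (ε : ℝ), 0 < ε → ∃ F, (∀ p ∈ F, p.1 ∈ T) ∧
    ∃ g ∈ Ψ F, ∀ a ∈ A, a ∈ closure T → |f a - g a| ≤ ε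

theorem exists_sys {A : Set X} (h : GoodC.{u, w} A) (c : CorsonData X) (S : c.Δ → Set X)
    (hS : ∀ δ, (S δ).Countable) : Nonempty (SysC c S A) := by
  classical
  -- the combination
  let xx : Finset (X × ℚ × ℚ) → X := fun F => ∑ p ∈ F, (p.2.1 : ℝ) • p.1
  have hxx : ∀ x, xx {(x, 1, 1)} = x := by
    intro x
    simp [xx]
  have h1 : ∀ x : X, ∃ f : X →L[ℝ] ℝ, ‖f‖ ≤ 1 ∧ f x = ‖x‖ := by
    intro x
    obtain ⟨g, hg, hgx⟩ := exists_dual_vector'' ℝ x
    exact ⟨g, hg, by simpa using hgx⟩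
  choose nrm hnrm using h1
  have h2 : ∀ (x : X) (n : ℕ), ∃ f : X →L[ℝ] ℝ, Disjoint (ball x (1 / ((n : ℝ) + 1))) A →
      ∃ u : ℝ, (∀ b ∈ ball x (1 / ((n : ℝ) + 1)), f b < u) ∧ ∀ a ∈ A, u ≤ f a := by
    intro x n
    by_cases hd : Disjoint (ball x (1 / ((n : ℝ) + 1))) A
    · obtain ⟨f, u, hf⟩ := geometric_hahn_banach_open (convex_ball _ _) isOpen_ball h.convex hd
      exact ⟨f, fun _ => ⟨u, hf⟩⟩
    · exact ⟨0, fun h => absurd h hd⟩
  choose sp hsp using h2
  have h3 : ∀ (N k : ℕ), ∃ g : Finset (X × ℚ × ℚ) → (X →L[ℝ] ℝ), ∀ T : Set X,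
      ∀ f : X →L[ℝ] ℝ, ‖f‖ ≤ N → ∃ F, (∀ p ∈ F, p.1 ∈ T) ∧
        ∀ a ∈ A, a ∈ closure T → |f a - g F a| ≤ 1 / ((k : ℝ) + 1) :=
    fun N k => exists_gen h.asp N _ (by positivity)
  choose gg hgg using h3
  let Ψ0 : Finset (X × ℚ × ℚ) → Set (X →L[ℝ] ℝ) := fun F =>
    {nrm (xx F)} ∪ range (fun n => sp (xx F) n) ∪ range (fun q : ℕ × ℕ => gg q.1 q.2 F)
  have hΨ0c : ∀ F, (Ψ0 F).Countable := fun F =>
    ((countable_singleton _).union (countable_range _)).union (countable_range _)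
  let Ψ1 : Finset (X × ℚ × ℚ) → Set (X →L[ℝ] ℝ) := fun F => ⋃ F' ∈ F.powerset, Ψ0 F'
  have hΨ1c : ∀ F, (Ψ1 F).Countable := fun F =>
    (F.powerset.countable_toSet).biUnion fun F' _ => hΨ0c F'
  have hΨ1m : ∀ F F', F ⊆ F' → Ψ1 F ⊆ Ψ1 F' := by
    intro F F' hF f hf
    simp only [Ψ1, mem_iUnion] at hf ⊢
    obtain ⟨G, hG, hf⟩ := hf
    exact ⟨G, Finset.mem_powerset.2 ((Finset.mem_powerset.1 hG).trans hF), hf⟩
  have hΨ01 : ∀ F, Ψ0 F ⊆ Ψ1 F := by
    intro F f hf
    simp only [Ψ1, mem_iUnion]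
    exact ⟨F, Finset.mem_powerset_self F, hf⟩
  let Ψ : Finset (X × ℚ × ℚ) → Set (X →L[ℝ] ℝ) := fun F =>
    (Submodule.span ℚ (Ψ1 F) : Submodule ℚ (X →L[ℝ] ℝ))
  have hΨ1 : ∀ F, Ψ1 F ⊆ Ψ F := fun F => Submodule.subset_span
  have hΨc : ∀ F, (Ψ F).Countable := by
    intro F
    haveI : Countable (Ψ1 F) := (hΨ1c F).to_subtype
    have h5 : Countable (Submodule.span ℚ (Set.range ((↑) : Ψ1 F → (X →L[ℝ] ℝ)))) := inferInstance
    rw [Subtype.range_coe] at h5
    exact Set.countable_coe_iff.1 h5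
  have h4 : ∀ F, ∃ t : ℕ → X, {xx F} ∪ ⋃ f ∈ {f | f ∈ Ψ F ∧ ‖f‖ ≤ 1},
      ⋃ δ ∈ {δ | c.h f δ ≠ 0}, S δ = range t := by
    intro F
    apply Set.Countable.exists_eq_range
    · refine (countable_singleton _).union (Set.Countable.biUnion ((hΨc F).mono fun f hf => hf.1) ?_)
      intro f hf
      exact Set.Countable.biUnion (c.cnt f hf.2) fun δ _ => hS δ
    · exact ⟨xx F, Or.inl rfl⟩
  choose θ hθ using h4
  refine ⟨⟨Ψ, θ, ?_, ?_, ?_, ?_, ?_, ?_, ?_, ?_, ?_⟩⟩
  · intro F
    have : xx F ∈ range (θ F) := by rw [← hθ F]; exact Or.inl rfl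
    exact this
  · intro F F' hF
    exact Submodule.span_mono (hΨ1m F F' hF)
  · intro F
    exact Submodule.zero_mem _
  · intro F f hf g hg
    exact Submodule.add_mem _ hf hg
  · intro F q f hf
    have h6 := Submodule.smul_mem (Submodule.span ℚ (Ψ1 F)) q hf
    have h7 : q • f = (q : ℝ) • f := by
      ext x
      show q • (f x) = (q : ℝ) • (f x)
      rw [Rat.smul_def, smul_eq_mul]
    rw [h7] at h6
    exact h6
  · intro F f hf hf1 δ hδ x hx
    have : x ∈ range (θ F) := by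
      rw [← hθ F]
      right
      simp only [mem_iUnion]
      exact ⟨f, ⟨hf, hf1⟩, δ, hδ, hx⟩
    exact this
  · intro x
    refine ⟨nrm x, hΨ1 _ (hΨ01 _ ?_), hnrm x⟩
    left; left
    rw [hxx]
    rfl
  · intro x n hd
    refine ⟨sp x n, hΨ1 _ (hΨ01 _ ?_), hsp x n hd⟩
    left; right
    rw [hxx]
    exact ⟨n, rfl⟩
  · intro T f ε hε
    obtain ⟨N, hN⟩ := exists_nat_ge ‖f‖
    obtain ⟨k, hk⟩ := exists_nat_one_div_lt hε
    obtain ⟨F, hFS, hF⟩ := hgg N k T f hN
    refine ⟨F, hFS, gg N k F, hΨ1 _ (hΨ01 _ ?_), fun a ha haS => (hF a ha haS).trans hk.le⟩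
    right
    exact ⟨(N, k), rfl⟩

variable {c : CorsonData X} {S : c.Δ → Set X} {A : Set X}

/-- The functionals of a model. -/
def SysC.D (s : SysC c S A) (C : Set X) : Set (X →L[ℝ] ℝ) :=
  {f | ∃ F : Finset (X × ℚ × ℚ), (∀ p ∈ F, p.1 ∈ C) ∧ f ∈ s.Ψ F}

theorem SysC.D_mono (s : SysC c S A) {C C' : Set X} (h : C ⊆ C') : s.D C ⊆ s.D C' := by
  rintro f ⟨F, hF, hf⟩
  exact ⟨F, fun p hp => h (hF p hp), hf⟩

theorem SysC.D_iUnion (s : SysC c S A) {C : ℕ → Set X} (hC : Monotone C) {f : X →L[ℝ] ℝ}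
    (hf : f ∈ s.D (⋃ n, C n)) : ∃ n, f ∈ s.D (C n) := by
  obtain ⟨F, hF, hf⟩ := hf
  obtain ⟨k, hk⟩ := exists_bound hC F hF
  exact ⟨k, F, hk, hf⟩

theorem SysC.D_zero (s : SysC c S A) (C : Set X) : (0 : X →L[ℝ] ℝ) ∈ s.D C :=
  ⟨∅, by simp, s.zero _⟩

theorem SysC.D_add (s : SysC c S A) {C : Set X} {f g : X →L[ℝ] ℝ} (hf : f ∈ s.D C)
    (hg : g ∈ s.D C) : f + g ∈ s.D C := by
  classical
  obtain ⟨F, hF, hf⟩ := hf
  obtain ⟨G, hG, hg⟩ := hg
  refine ⟨F ∪ G, fun p hp => ?_, s.add _ _ (s.mono _ _ Finset.subset_union_left hf) _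
    (s.mono _ _ Finset.subset_union_right hg)⟩
  rcases Finset.mem_union.1 hp with h | h
  · exact hF p h
  · exact hG p h

theorem SysC.D_smul (s : SysC c S A) {C : Set X} (q : ℚ) {f : X →L[ℝ] ℝ} (hf : f ∈ s.D C) :
    (q : ℝ) • f ∈ s.D C := by
  obtain ⟨F, hF, hf⟩ := hf
  exact ⟨F, hF, s.smul _ q _ hf⟩

/-- the functionals of the model in the unit ball -/
def Z0 (s : SysC c S A) (C : Set X) : Set (WeakDual ℝ X) :=
  {z | WeakDual.toStrongDual z ∈ s.D C ∧ ‖WeakDual.toStrongDual z‖ ≤ 1}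

theorem Z0_zero (s : SysC c S A) (C : Set X) : (0 : WeakDual ℝ X) ∈ Z0 s C := by
  refine ⟨?_, ?_⟩
  · exact s.D_zero C
  · rw [map_zero, norm_zero]; exact zero_le_one

theorem Z0_neg (s : SysC c S A) (C : Set X) {z : WeakDual ℝ X} (hz : z ∈ Z0 s C) :
    -z ∈ Z0 s C := by
  refine ⟨?_, ?_⟩
  · rw [map_neg]
    have h1 := s.D_smul (-1) hz.1
    have e : (((-1 : ℚ)) : ℝ) • WeakDual.toStrongDual z = -WeakDual.toStrongDual z := by
      ext x
      show (((-1 : ℚ)) : ℝ) * z x = -(z x)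
      push_cast
      ring
    rw [e] at h1
    exact h1
  · rw [map_neg, norm_neg]
    exact hz.2

theorem Z0_comb (s : SysC c S A) (C : Set X) {z w : WeakDual ℝ X} (hz : z ∈ Z0 s C)
    (hw : w ∈ Z0 s C) {q : ℚ} (h0 : 0 ≤ q) (h1 : q ≤ 1) :
    (1 - (q : ℝ)) • z + (q : ℝ) • w ∈ Z0 s C := by
  have h0' : (0 : ℝ) ≤ (q : ℝ) := by exact_mod_cast h0
  have h1' : (q : ℝ) ≤ 1 := by exact_mod_cast h1
  refine ⟨?_, ?_⟩
  · rw [map_add, map_smul, map_smul]
    refine s.D_add ?_ (s.D_smul q hw.1)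
    have := s.D_smul (1 - q) hz.1
    push_cast at this
    exact this
  · rw [map_add, map_smul, map_smul]
    calc ‖(1 - (q : ℝ)) • WeakDual.toStrongDual z + (q : ℝ) • WeakDual.toStrongDual w‖
        ≤ ‖(1 - (q : ℝ)) • WeakDual.toStrongDual z‖ + ‖(q : ℝ) • WeakDual.toStrongDual w‖ :=
          norm_add_le _ _
      _ = (1 - (q : ℝ)) * ‖WeakDual.toStrongDual z‖ + (q : ℝ) * ‖WeakDual.toStrongDual w‖ := by
          rw [norm_smul, norm_smul, Real.norm_of_nonneg (by linarith), Real.norm_of_nonneg h0']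
      _ ≤ (1 - (q : ℝ)) * 1 + (q : ℝ) * 1 := by
          gcongr
          · exact hz.2
          · exact hw.2
      _ = 1 := by ring

theorem isCompact_Z (s : SysC c S A) (C : Set X) : IsCompact (closure (Z0 s C)) := by
  have hB : IsCompact (WeakDual.toStrongDual ⁻¹' closedBall (0 : StrongDual ℝ X) 1) :=
    WeakDual.isCompact_closedBall 0 1
  refine hB.of_isClosed_subset isClosed_closure (closure_minimal ?_ hB.isClosed)
  intro z hz
  exact mem_closedBall_zero_iff.2 hz.2

theorem norm_le_of_mem_Z (s : SysC c S A) (C : Set X) {z : WeakDual ℝ X}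
    (hz : z ∈ closure (Z0 s C)) : ‖WeakDual.toStrongDual z‖ ≤ 1 := by
  have hB : IsCompact (WeakDual.toStrongDual ⁻¹' closedBall (0 : StrongDual ℝ X) 1) :=
    WeakDual.isCompact_closedBall 0 1
  have hsub : Z0 s C ⊆ WeakDual.toStrongDual ⁻¹' closedBall (0 : StrongDual ℝ X) 1 :=
    fun w hw => mem_closedBall_zero_iff.2 hw.2
  have : z ∈ WeakDual.toStrongDual ⁻¹' closedBall (0 : StrongDual ℝ X) 1 :=
    closure_minimal hsub hB.isClosed hz
  exact mem_closedBall_zero_iff.1 this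

theorem symm_Z (s : SysC c S A) (C : Set X) : ∀ z ∈ closure (Z0 s C), -z ∈ closure (Z0 s C) := by
  intro z hz
  exact map_mem_closure continuous_neg hz fun w hw => Z0_neg s C hw

theorem convex_Z (s : SysC c S A) (C : Set X) : Convex ℝ (closure (Z0 s C)) := by
  have hrat : ∀ z ∈ closure (Z0 s C), ∀ w ∈ closure (Z0 s C), ∀ q : ℚ, 0 ≤ q → q ≤ 1 →
      (1 - (q : ℝ)) • z + (q : ℝ) • w ∈ closure (Z0 s C) := by
    intro z hz w hw q h0 h1
    refine map_mem_closure₂ (f := fun z w : WeakDual ℝ X => (1 - (q : ℝ)) • z + (q : ℝ) • w)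
      ?_ hz hw fun a ha b hb => Z0_comb s C ha hb h0 h1
    have hc1 : Continuous fun p : WeakDual ℝ X × WeakDual ℝ X => (1 - (q : ℝ)) • p.1 :=
      (continuous_const_smul (1 - (q : ℝ))).comp continuous_fst
    have hc2 : Continuous fun p : WeakDual ℝ X × WeakDual ℝ X => (q : ℝ) • p.2 :=
      (continuous_const_smul (q : ℝ)).comp continuous_snd
    exact hc1.add hc2
  intro z hz w hw a b ha hb hab
  have ha' : a = 1 - b := by linarith
  subst ha'
  have hb1 : b ≤ 1 := by linarith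
  have hcont : Continuous fun t : ℝ => (1 - t) • z + t • w := by
    apply WeakDual.continuous_of_continuous_eval
    intro x
    show Continuous fun t : ℝ => (1 - t) * z x + t * w x
    fun_prop
  have hlim : Tendsto (fun n : ℕ => (⌊b * (n : ℝ)⌋₊ : ℝ) / (n : ℝ)) atTop (𝓝 b) :=
    (tendsto_nat_floor_mul_div_atTop hb).comp tendsto_natCast_atTop_atTop
  have h2 : Tendsto (fun n : ℕ => (1 - (⌊b * (n : ℝ)⌋₊ : ℝ) / (n : ℝ)) • z +
      ((⌊b * (n : ℝ)⌋₊ : ℝ) / (n : ℝ)) • w) atTop (𝓝 ((1 - b) • z + b • w)) :=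
    (hcont.tendsto b).comp hlim
  refine isClosed_closure.mem_of_tendsto h2 ?_
  filter_upwards [eventually_gt_atTop 0] with n hn
  have hn' : (0 : ℝ) < n := by exact_mod_cast hn
  have h3 := hrat z hz w hw ((⌊b * (n : ℝ)⌋₊ : ℚ) / (n : ℚ)) (by positivity) (by
    rw [div_le_one (by exact_mod_cast hn)]
    have h4 : (⌊b * (n : ℝ)⌋₊ : ℝ) ≤ n := by
      refine (Nat.floor_le (by positivity)).trans ?_
      nlinarith
    exact_mod_cast h4)
  push_cast at h3
  exact h3

/-- On the weak star closure of the functionals of a model the points of the model separate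
from `0`. -/
theorem inj_Z (s : SysC c S A) (hdep : ∀ δ, ∀ f g : X →L[ℝ] ℝ, ‖f‖ ≤ 1 → ‖g‖ ≤ 1 →
    (∀ x ∈ S δ, f x = g x) → c.h f δ = c.h g δ) {C : Set X} (hC : Closed s.θ C)
    {z : WeakDual ℝ X} (hz : z ∈ closure (Z0 s C)) (h0 : ∀ x ∈ C, z x = 0) : z = 0 := by
  have hz1 := norm_le_of_mem_Z s C hz
  have h01 : ‖(0 : X →L[ℝ] ℝ)‖ ≤ 1 := by rw [norm_zero]; exact zero_le_one
  have key : ∀ δ, c.h (WeakDual.toStrongDual z) δ = c.h 0 δ := by
    intro δ
    by_cases hδ : ∃ w ∈ Z0 s C, c.h (WeakDual.toStrongDual w) δ ≠ 0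
    · obtain ⟨w, ⟨⟨F, hF, hw⟩, hw1⟩, hne⟩ := hδ
      apply hdep δ _ _ hz1 h01
      intro x hx
      obtain ⟨n, hn⟩ := s.supp F _ hw hw1 δ hne x hx
      have hxC : x ∈ C := by rw [← hn]; exact hC F hF n
      exact h0 x hxC
    · push Not at hδ
      have hB : IsCompact (WeakDual.toStrongDual ⁻¹' closedBall (0 : StrongDual ℝ X) 1) :=
        WeakDual.isCompact_closedBall 0 1
      have hcl := (c.cont δ).preimage_isClosed_of_isClosed hB.isClosed
        (isClosed_singleton (x := (0 : ℝ)))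
      have hsub : Z0 s C ⊆ (WeakDual.toStrongDual ⁻¹' closedBall (0 : StrongDual ℝ X) 1) ∩
          (fun f : WeakDual ℝ X => c.h (WeakDual.toStrongDual f) δ) ⁻¹' {0} := by
        intro w hw
        exact ⟨mem_closedBall_zero_iff.2 hw.2, hδ w hw⟩
      have h1 := (closure_minimal hsub hcl hz).2
      have h2 := hδ 0 (Z0_zero s C)
      rw [map_zero] at h2
      rw [h2]
      exact h1
  have := c.inj _ _ hz1 h01 key
  exact WeakDual.toStrongDual.injective (by rw [this, map_zero])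

section model

variable (s : SysC c S A) {C : Set X} (hC : Closed s.θ C)

include hC

theorem comb_mem {F : Finset (X × ℚ × ℚ)} (hF : ∀ p ∈ F, p.1 ∈ C) :
    ∑ p ∈ F, (p.2.1 : ℝ) • p.1 ∈ C := by
  obtain ⟨n, hn⟩ := s.comb F
  rw [← hn]
  exact hC F hF n

theorem zero_mem' : (0 : X) ∈ C := by
  have := comb_mem s hC (F := ∅) (by simp)
  simpa using this

theorem smul_mem' (q : ℚ) {x : X} (hx : x ∈ C) : (q : ℝ) • x ∈ C := by
  have := comb_mem s hC (F := {(x, q, 0)}) (by simpa using hx)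
  simpa using this

theorem add_mem' {x y : X} (hx : x ∈ C) (hy : y ∈ C) : x + y ∈ C := by
  classical
  by_cases hxy : x = y
  · subst hxy
    have := smul_mem' s hC 2 hx
    rw [← two_smul ℝ x]
    simpa using this
  · have := comb_mem s hC (F := {(x, 1, 0), (y, 1, 0)}) (by
      intro p hp
      simp only [Finset.mem_insert, Finset.mem_singleton] at hp
      rcases hp with rfl | rfl
      · exact hx
      · exact hy)
    rw [Finset.sum_pair (by simpa using hxy)] at this
    simpa using this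

/-- The closed subspace of a model. -/
def V : Submodule ℝ X where
  carrier := closure C
  add_mem' := by
    intro a b ha hb
    exact map_mem_closure₂ continuous_add ha hb fun a ha b hb => add_mem' s hC ha hb
  zero_mem' := subset_closure (zero_mem' s hC)
  smul_mem' := by
    intro c x hx
    have hc : c ∈ closure (range ((↑) : ℚ → ℝ)) := Rat.isDenseEmbedding_coe_real.dense c
    refine map_mem_closure₂ (f := fun (c : ℝ) (x : X) => c • x) continuous_smul hc hx ?_
    rintro _ ⟨q, rfl⟩ b hb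
    exact smul_mem' s hC q hb

omit hC in
/-- The annihilator of the functionals of a model. -/
def Wk (C : Set X) : Submodule ℝ X where
  carrier := {x | ∀ f ∈ s.D C, f x = 0}
  add_mem' := by
    intro a b ha hb f hf
    rw [map_add, ha f hf, hb f hf, add_zero]
  zero_mem' := fun f _ => map_zero f
  smul_mem' := by
    intro c x hx f hf
    rw [map_smul, hx f hf, smul_zero]

theorem norm_le_add {v w : X} (hv : v ∈ closure C) (hw : w ∈ Wk s C) : ‖v‖ ≤ ‖v + w‖ := by
  have hcl : IsClosed {v : X | ‖v‖ ≤ ‖v + w‖} :=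
    isClosed_le continuous_norm (continuous_norm.comp (continuous_id.add continuous_const))
  refine closure_minimal (fun x hx => ?_) hcl hv
  obtain ⟨f, hf, hf1, hfx⟩ := s.norming x
  have hfD : f ∈ s.D C := ⟨_, by simpa using hx, hf⟩
  have h1 : f (x + w) = ‖x‖ := by
    rw [map_add, hw f hfD, add_zero, hfx]
  show ‖x‖ ≤ ‖x + w‖
  calc ‖x‖ = f (x + w) := h1.symm
    _ ≤ ‖f (x + w)‖ := Real.le_norm_self _
    _ ≤ ‖f‖ * ‖x + w‖ := f.le_opNorm _
    _ ≤ 1 * ‖x + w‖ := by gcongr
    _ = ‖x + w‖ := one_mul _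

omit hC in
theorem norm_le_of_Z {v : X} (hv : v ∈ closure C) {r : ℝ}
    (h : ∀ z ∈ closure (Z0 s C), |z v| ≤ r) : ‖v‖ ≤ r := by
  refine le_of_forall_pos_le_add fun ε hε => ?_
  obtain ⟨x, hxC, hx⟩ := Metric.mem_closure_iff.1 hv (ε / 2) (by positivity)
  rw [dist_eq_norm] at hx
  obtain ⟨f, hf, hf1, hfx⟩ := s.norming x
  have hfD : f ∈ s.D C := ⟨_, by simpa using hxC, hf⟩
  have hfZ : (StrongDual.toWeakDual f) ∈ closure (Z0 s C) := subset_closure ⟨hfD, hf1⟩
  have h1 : |f v| ≤ r := h _ hfZ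
  have h2 : |f (x - v)| ≤ ‖v - x‖ := by
    calc |f (x - v)| = ‖f (x - v)‖ := (Real.norm_eq_abs _).symm
      _ ≤ ‖f‖ * ‖x - v‖ := f.le_opNorm _
      _ ≤ 1 * ‖x - v‖ := by gcongr
      _ = ‖v - x‖ := by rw [one_mul, norm_sub_rev]
  have h3 : ‖x‖ = f v + f (x - v) := by
    rw [map_sub, ← hfx]; ring
  have h4 : ‖v‖ ≤ ‖x‖ + ‖v - x‖ := by
    calc ‖v‖ = ‖x + (v - x)‖ := by congr 1; abel
      _ ≤ ‖x‖ + ‖v - x‖ := norm_add_le _ _
  have h5 := le_abs_self (f v)
  have h6 := le_abs_self (f (x - v))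
  linarith

theorem isCompl [CompleteSpace X] (hdep : ∀ δ, ∀ f g : X →L[ℝ] ℝ, ‖f‖ ≤ 1 → ‖g‖ ≤ 1 →
    (∀ x ∈ S δ, f x = g x) → c.h f δ = c.h g δ) : IsCompl (V s hC) (Wk s C) := by
  have hVc : IsClosed (V s hC : Set X) := isClosed_closure
  constructor
  · rw [Submodule.disjoint_def]
    intro x hx hxw
    have := norm_le_add s hC hx (Submodule.neg_mem _ hxw)
    rw [add_neg_cancel, norm_zero] at this
    exact norm_le_zero_iff.1 this
  · rw [codisjoint_iff, eq_top_iff]
    intro x _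
    obtain ⟨v, hv, hvz⟩ := exists_rep (isCompact_Z s C) (convex_Z s C) (symm_Z s C)
      ⟨0, subset_closure (Z0_zero s C)⟩ (V s hC) hVc
      (fun z hz h0 => inj_Z s hdep hC hz fun x hx => h0 x (subset_closure hx))
      (fun v hv r hr => norm_le_of_Z s hv hr) x
    rw [Submodule.mem_sup]
    refine ⟨v, hv, x - v, ?_, by abel⟩
    intro f hf
    obtain ⟨n, hn⟩ := exists_nat_ge ‖f‖
    have hn1 : (0 : ℝ) < (n : ℝ) + 1 := by positivity
    have hg : (((1 / ((n : ℚ) + 1) : ℚ)) : ℝ) • f ∈ s.D C := s.D_smul _ hf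
    have hgn : ‖(((1 / ((n : ℚ) + 1) : ℚ)) : ℝ) • f‖ ≤ 1 := by
      rw [norm_smul]
      push_cast
      rw [Real.norm_of_nonneg (by positivity), one_div, inv_mul_le_iff₀ hn1]
      linarith
    have hgZ : (StrongDual.toWeakDual ((((1 / ((n : ℚ) + 1) : ℚ)) : ℝ) • f)) ∈ closure (Z0 s C) :=
      subset_closure ⟨hg, hgn⟩
    have h1 : (((1 / ((n : ℚ) + 1) : ℚ)) : ℝ) * f v = (((1 / ((n : ℚ) + 1) : ℚ)) : ℝ) * f x :=
      hvz _ hgZ
    have h2 : (((1 / ((n : ℚ) + 1) : ℚ)) : ℝ) ≠ 0 := by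
      push_cast
      positivity
    have h3 := mul_left_cancel₀ h2 h1
    rw [map_sub, h3, sub_self]

/-- The projection of a model exists. -/
theorem exists_proj [CompleteSpace X] (hG : GoodC.{u, w} A) (hdep : ∀ δ, ∀ f g : X →L[ℝ] ℝ, ‖f‖ ≤ 1 →
    ‖g‖ ≤ 1 → (∀ x ∈ S δ, f x = g x) → c.h f δ = c.h g δ) :
    ∃ P : X →L[ℝ] X, (∀ x, P x ∈ closure C) ∧ (∀ x ∈ closure C, P x = x) ∧
      (∀ f ∈ s.D C, ∀ x, f (P x) = f x) ∧
      (∀ x, (∀ f ∈ s.D C, f x = 0) → P x = 0) ∧ (∀ x, ‖P x‖ ≤ ‖x‖) ∧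
      (∀ a ∈ A, P a ∈ A) ∧
      (∀ f : X →L[ℝ] ℝ, ∀ ε > 0, ∃ g ∈ s.D C, ∀ a ∈ A, |f (P a) - g a| ≤ ε) := by
  have hcompl := isCompl s hC hdep
  let P0 : X →ₗ[ℝ] X := (V s hC).projection (Wk s C) hcompl
  have hker : ∀ x, x - P0 x ∈ Wk s C := by
    intro x
    have := Submodule.projection_eq_self_sub_projection hcompl x
    rw [← this]
    exact Submodule.projection_apply_mem _ _
  have hmem : ∀ x, P0 x ∈ closure C := fun x => Submodule.projection_apply_mem hcompl x
  have hnorm : ∀ x, ‖P0 x‖ ≤ 1 * ‖x‖ := by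
    intro x
    have := norm_le_add s hC (hmem x) (hker x)
    rwa [add_sub_cancel, ← one_mul ‖x‖] at this
  let P : X →L[ℝ] X := P0.mkContinuous 1 hnorm
  have hP : ∀ x, P x = P0 x := fun x => rfl
  have hD : ∀ f ∈ s.D C, ∀ x, f (P x) = f x := by
    intro f hf x
    have := hker x f hf
    rw [map_sub, sub_eq_zero] at this
    exact this.symm
  have hid : ∀ x ∈ closure C, P x = x := fun x hx =>
    Submodule.projection_apply_of_mem_left hcompl hx
  have hA : ∀ a ∈ A, P a ∈ A := by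
    intro a ha
    by_contra hPa
    obtain ⟨r, hr, hball⟩ := Metric.isOpen_iff.1 hG.closed.isOpen_compl _ hPa
    obtain ⟨n, hn⟩ := exists_nat_one_div_lt (half_pos hr)
    have hcl : P a ∈ closure C := hmem a
    obtain ⟨x, hxC, hx⟩ := Metric.mem_closure_iff.1 hcl (1 / ((n : ℝ) + 1)) (by positivity)
    have hdisj : Disjoint (ball x (1 / ((n : ℝ) + 1))) A := by
      rw [Set.disjoint_left]
      intro b hb hbA
      have : b ∈ ball (P a) r := by
        rw [mem_ball] at hb ⊢
        calc dist b (P a) ≤ dist b x + dist x (P a) := dist_triangle _ _ _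
          _ < r / 2 + r / 2 := by
            rw [dist_comm x]
            linarith
          _ = r := by ring
      exact hball this hbA
    obtain ⟨f, hf, u, hu1, hu2⟩ := s.sep x n hdisj
    have hfD : f ∈ s.D C := ⟨_, by simpa using hxC, hf⟩
    have h1 := hu1 (P a) (by rw [mem_ball]; exact hx)
    have h2 := hu2 a ha
    rw [hD f hfD] at h1
    linarith
  refine ⟨P, hmem, hid, hD, ?_, ?_, hA, ?_⟩
  · intro x hx
    exact Submodule.projection_apply_of_mem_right hcompl hx
  · intro x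
    have := hnorm x
    rwa [one_mul] at this
  · intro f ε hε
    obtain ⟨F, hFC, g, hg, hfg⟩ := s.approx C f ε hε
    have hgD : g ∈ s.D C := ⟨F, hFC, hg⟩
    refine ⟨g, hgD, fun a ha => ?_⟩
    have := hfg (P a) (hA a ha) (hmem a)
    rwa [hD g hgD] at this

end model


end models

section induction



/-- The conclusion for spaces of density at most `κ`. -/
def Concl (κ : Cardinal.{u}) : Prop :=
  ∀ (X : Type u) [NormedAddCommGroup X] [NormedSpace ℝ X] [CompleteSpace X] (A : Set X),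
    GoodC.{u, w} A → (∃ E : Set X, Dense E ∧ #E ≤ κ) →
    ∃ K ⊆ A, IsCompact (toWeakSpace ℝ X '' K) ∧ Dense (Submodule.span ℝ K : Set X)

variable {X : Type u} [NormedAddCommGroup X] [NormedSpace ℝ X]

/-- Corson dual balls pass to spaces which are images (with dense range). -/
noncomputable def CorsonData.image {Y : Type v} [NormedAddCommGroup Y] [NormedSpace ℝ Y]
    (c : CorsonData X) (R : X →L[ℝ] Y) (hR : DenseRange R) : CorsonData Y where
  Δ := c.Δ
  h := fun g => c.h ((‖R‖ + 1)⁻¹ • g.comp R)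
  cnt := by
    intro g hg
    refine c.cnt _ ?_
    have hp : 0 < ‖R‖ + 1 := by positivity
    rw [norm_smul, norm_inv, Real.norm_of_nonneg hp.le, inv_mul_le_iff₀ hp]
    calc ‖g.comp R‖ ≤ ‖g‖ * ‖R‖ := g.opNorm_comp_le R
      _ ≤ 1 * ‖R‖ := by gcongr
      _ ≤ (‖R‖ + 1) * 1 := by linarith
  inj := by
    intro f g hf hg hfg
    have hp : 0 < ‖R‖ + 1 := by positivity
    have hb : ∀ g : Y →L[ℝ] ℝ, ‖g‖ ≤ 1 → ‖(‖R‖ + 1)⁻¹ • g.comp R‖ ≤ 1 := by
      intro g hg
      rw [norm_smul, norm_inv, Real.norm_of_nonneg hp.le, inv_mul_le_iff₀ hp]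
      calc ‖g.comp R‖ ≤ ‖g‖ * ‖R‖ := g.opNorm_comp_le R
        _ ≤ 1 * ‖R‖ := by gcongr
        _ ≤ (‖R‖ + 1) * 1 := by linarith
    have h1 := c.inj _ _ (hb f hf) (hb g hg) hfg
    have h2 : f.comp R = g.comp R := smul_right_injective _ (inv_ne_zero hp.ne') h1
    ext y
    have h3 := hR.equalizer f.continuous g.continuous
      (funext fun x => congrArg (fun φ : X →L[ℝ] ℝ => φ x) h2)
    exact congrFun h3 y
  cont := by
    intro δ
    have hp : 0 < ‖R‖ + 1 := by positivity
    let T : WeakDual ℝ Y → WeakDual ℝ X := fun g =>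
      StrongDual.toWeakDual ((‖R‖ + 1)⁻¹ • (WeakDual.toStrongDual g).comp R)
    have hT : Continuous T := by
      apply WeakDual.continuous_of_continuous_eval
      intro x
      show Continuous fun g : WeakDual ℝ Y => (‖R‖ + 1)⁻¹ * g (R x)
      exact (WeakDual.eval_continuous (R x)).const_mul _
    refine (c.cont δ).comp hT.continuousOn ?_
    intro g hg
    have hg' : ‖WeakDual.toStrongDual g‖ ≤ 1 := mem_closedBall_zero_iff.1 hg
    refine mem_closedBall_zero_iff.2 ?_
    show ‖(‖R‖ + 1)⁻¹ • (WeakDual.toStrongDual g).comp R‖ ≤ 1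
    rw [norm_smul, norm_inv, Real.norm_of_nonneg hp.le, inv_mul_le_iff₀ hp]
    calc ‖(WeakDual.toStrongDual g).comp R‖ ≤ ‖WeakDual.toStrongDual g‖ * ‖R‖ :=
          (WeakDual.toStrongDual g).opNorm_comp_le R
      _ ≤ 1 * ‖R‖ := by gcongr
      _ ≤ (‖R‖ + 1) * 1 := by linarith

/-- Transfer of the standing hypotheses to a quotient-like image. -/
theorem GoodC.image {Y : Type v} [NormedAddCommGroup Y] [NormedSpace ℝ Y] {A : Set X}
    (hG : GoodC.{u, w} A) (R : X →L[ℝ] Y) (hR : DenseRange R) :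
    GoodC.{v, w} (closure (R '' A)) where
  closed := isClosed_closure
  convex := (hG.convex.linear_image R.toLinearMap).closure
  symm := by
    intro a ha
    have hsub : closure (R '' A) ⊆ (fun y : Y => -y) ⁻¹' closure (R '' A) := by
      refine closure_minimal ?_ (isClosed_closure.preimage continuous_neg)
      rintro _ ⟨a, ha, rfl⟩
      show -(R a) ∈ closure (R '' A)
      rw [← map_neg]
      exact subset_closure ⟨-a, hG.symm a ha, rfl⟩
    exact hsub ha
  zero := subset_closure ⟨0, hG.zero, map_zero R⟩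
  bdd := by
    obtain ⟨r, hr⟩ := hG.bdd
    refine ⟨‖R‖ * r, fun a ha => ?_⟩
    refine closure_minimal ?_ (isClosed_le continuous_norm continuous_const) ha
    rintro _ ⟨a, ha, rfl⟩
    show ‖R a‖ ≤ ‖R‖ * r
    exact (R.le_opNorm a).trans (by gcongr; exact hr a ha)
  dense := by
    have h1 : Dense (R '' (Submodule.span ℝ A : Set X)) := hR.dense_image R.continuous hG.dense
    refine h1.mono ?_
    rintro _ ⟨x, hx, rfl⟩
    have h2 : (Submodule.span ℝ A).map R.toLinearMap ≤ Submodule.span ℝ (closure (R '' A)) := by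
      rw [Submodule.map_span]
      exact Submodule.span_mono subset_closure
    exact h2 ⟨x, hx, rfl⟩
  asp := hG.asp.image R
  cor := hG.cor.map fun c => c.image R hR

/-- The separable case. -/
theorem separable_case {A : Set X} (hG : GoodC.{u, w} A) (hsep : TopologicalSpace.SeparableSpace X) :
    ∃ K ⊆ A, IsCompact (toWeakSpace ℝ X '' K) ∧ Dense (Submodule.span ℝ K : Set X) := by
  obtain ⟨T, hTA, hTc, hT⟩ :=
    (TopologicalSpace.IsSeparable.of_separableSpace A).exists_countable_dense_subset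
  obtain ⟨a, ha⟩ := (hTc.insert 0).exists_eq_range (insert_nonempty 0 T)
  have haA : ∀ n, a n ∈ A := by
    intro n
    have : a n ∈ insert 0 T := by rw [ha]; exact ⟨n, rfl⟩
    rcases this with h | h
    · rw [h]; exact hG.zero
    · exact hTA h
  let b : ℕ → X := fun n => (1 / ((n : ℝ) + 1)) • a n
  obtain ⟨r, hr⟩ := hG.bdd
  have hb : Tendsto b atTop (𝓝 0) := by
    rw [tendsto_zero_iff_norm_tendsto_zero]
    have h1 : Tendsto (fun n : ℕ => (1 / ((n : ℝ) + 1)) * r) atTop (𝓝 0) := by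
      have := (tendsto_one_div_add_atTop_nhds_zero_nat (𝕜 := ℝ)).mul_const r
      rwa [zero_mul] at this
    refine squeeze_zero (fun _ => norm_nonneg _) (fun n => ?_) h1
    rw [norm_smul, Real.norm_of_nonneg (by positivity)]
    gcongr
    exact hr _ (haA n)
  refine ⟨insert 0 (range b), ?_, weak_of_norm hb.isCompact_insert_range, ?_⟩
  · rintro x (rfl | ⟨n, rfl⟩)
    · exact hG.zero
    · apply hG.convex.smul_mem_of_zero_mem hG.zero (haA n)
      constructor
      · positivity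
      · rw [div_le_one (by positivity)]
        linarith [(Nat.cast_nonneg n : (0 : ℝ) ≤ n)]
  · -- the closed span contains A
    have h1 : ∀ n, a n ∈ Submodule.span ℝ (insert 0 (range b)) := by
      intro n
      have h2 : b n ∈ Submodule.span ℝ (insert 0 (range b)) :=
        Submodule.subset_span (Or.inr ⟨n, rfl⟩)
      have h3 : a n = ((n : ℝ) + 1) • b n := by
        simp only [b]
        rw [smul_smul, mul_one_div_cancel (by positivity), one_smul]
      rw [h3]
      exact Submodule.smul_mem _ _ h2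
    have h4 : A ⊆ ((Submodule.span ℝ (insert 0 (range b))).topologicalClosure : Set X) := by
      refine hT.trans ?_
      rw [Submodule.topologicalClosure_coe]
      refine closure_mono fun x hx => ?_
      have : x ∈ range a := by rw [← ha]; exact Or.inr hx
      obtain ⟨n, rfl⟩ := this
      exact h1 n
    have h5 : Submodule.span ℝ A ≤ (Submodule.span ℝ (insert 0 (range b))).topologicalClosure :=
      Submodule.span_le.2 h4
    intro x
    have hx := hG.dense x
    have := closure_minimal (fun y hy => h5 hy)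
      (Submodule.isClosed_topologicalClosure _) hx
    rwa [Submodule.topologicalClosure_coe] at this

/-- The piece attached to an operator with small range. -/
theorem piece {κ : Cardinal.{u}} (IH : ∀ κ' < κ, Concl.{u, w} κ') [CompleteSpace X] {A : Set X}
    (hG : GoodC.{u, w} A) (Q : X →L[ℝ] X) (C : Set X) (hC : #C < κ)
    (hQC : ∀ x, Q x ∈ closure (Q '' C)) :
    ∃ K : Set X, K ⊆ closure (Q '' A) ∧ IsCompact (toWeakSpace ℝ X '' K) ∧
      ∀ x, Q x ∈ closure (Submodule.span ℝ K : Set X) := by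
  let Y : Submodule ℝ X := Q.range.topologicalClosure
  have hYc : IsClosed (Y : Set X) := Submodule.isClosed_topologicalClosure _
  haveI : CompleteSpace Y := hYc.completeSpace_coe
  have hmem : ∀ x, Q x ∈ Y := fun x => Submodule.le_topologicalClosure _ ⟨x, rfl⟩
  let R : X →L[ℝ] Y := Q.codRestrict Y hmem
  have hRQ : ∀ x, ((R x : Y) : X) = Q x := fun x => rfl
  have hemb : IsEmbedding (Subtype.val : Y → X) := IsEmbedding.subtypeVal
  -- closure transfer
  have hcl : ∀ (S : Set X) (y : Y), (y : X) ∈ closure (Q '' S) → y ∈ closure (R '' S) := by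
    intro S y hy
    rw [hemb.closure_eq_preimage_closure_image]
    show (y : X) ∈ closure (Subtype.val '' (R '' S))
    have : (Subtype.val '' (R '' S) : Set X) = Q '' S := by
      rw [image_image]
      rfl
    rw [this]
    exact hy
  have hRd : DenseRange R := by
    intro y
    have hy : (y : X) ∈ closure (Q '' univ) := by
      have := y.2
      rw [← SetLike.mem_coe, Submodule.topologicalClosure_coe] at this
      rw [image_univ]
      exact this
    have := hcl univ y hy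
    rwa [image_univ] at this
  have hGY := hG.image R hRd
  have hdens : Dense (R '' C) := by
    intro y
    apply hcl
    have hy : (y : X) ∈ closure (Q '' univ) := by
      have := y.2
      rw [← SetLike.mem_coe, Submodule.topologicalClosure_coe] at this
      rw [image_univ]
      exact this
    refine closure_minimal ?_ isClosed_closure hy
    rintro _ ⟨x, -, rfl⟩
    exact hQC x
  obtain ⟨K, hKA, hKc, hKd⟩ := IH _ hC Y _ hGY ⟨R '' C, hdens, mk_image_le⟩
  refine ⟨Y.subtypeL '' K, ?_, weak_image _ hKc, ?_⟩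
  · rintro _ ⟨y, hy, rfl⟩
    have h1 := hKA hy
    rw [hemb.closure_eq_preimage_closure_image] at h1
    have h2 : (y : X) ∈ closure (Subtype.val '' (R '' A)) := h1
    have : (Subtype.val '' (R '' A) : Set X) = Q '' A := by
      rw [image_image]
      rfl
    rw [this] at h2
    exact h2
  · intro x
    have h1 := hKd (R x)
    rw [hemb.closure_eq_preimage_closure_image] at h1
    have h2 : (Q x) ∈ closure (Subtype.val '' (Submodule.span ℝ K : Set Y)) := h1
    refine closure_mono ?_ h2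
    rintro _ ⟨y, hy, rfl⟩
    have h3 : (Submodule.span ℝ K).map Y.subtypeL.toLinearMap ≤
        Submodule.span ℝ (Y.subtypeL '' K) := by
      rw [Submodule.map_span]
      rfl
    exact h3 ⟨y, hy, rfl⟩

theorem closed_iUnion {θ : Finset (X × ℚ × ℚ) → ℕ → X} {C : ℕ → Set X} (hC : Monotone C)
    (h : ∀ n, Closed θ (C n)) : Closed θ (⋃ n, C n) := by
  intro F hF n
  obtain ⟨k, hk⟩ := exists_bound hC F hF
  exact mem_iUnion.2 ⟨k, h k F hk n⟩

theorem main_step {κ : Cardinal.{u}} (hκ : ℵ₀ < κ) (IH : ∀ κ' < κ, Concl.{u, w} κ') [CompleteSpace X]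
    {A : Set X} (hG : GoodC.{u, w} A) (E : Set X) (hEd : Dense E) (hE : #E = κ) :
    ∃ K ⊆ A, IsCompact (toWeakSpace ℝ X '' K) ∧ Dense (Submodule.span ℝ K : Set X) := by
  classical
  obtain ⟨c⟩ := hG.cor
  have hdep0 := fun δ => c.dep δ
  choose S hS hdep using hdep0
  obtain ⟨s⟩ := exists_sys hG c S hS
  have hexP : ∀ C : Set X, ∃ P : X →L[ℝ] X, Closed s.θ C →
      ((∀ x, P x ∈ closure C) ∧ (∀ x ∈ closure C, P x = x) ∧
      (∀ f ∈ s.D C, ∀ x, f (P x) = f x) ∧
      (∀ x, (∀ f ∈ s.D C, f x = 0) → P x = 0) ∧ (∀ x, ‖P x‖ ≤ ‖x‖) ∧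
      (∀ a ∈ A, P a ∈ A) ∧
      (∀ f : X →L[ℝ] ℝ, ∀ ε > 0, ∃ g ∈ s.D C, ∀ a ∈ A, |f (P a) - g a| ≤ ε)) := by
    intro C
    by_cases hC : Closed s.θ C
    · obtain ⟨P, hP⟩ := exists_proj s hC hG hdep
      exact ⟨P, fun _ => hP⟩
    · exact ⟨0, fun h => absurd h hC⟩
  choose P hP using hexP
  -- compatibility
  have hPP : ∀ C C' : Set X, Closed s.θ C → Closed s.θ C' → C ⊆ C' → ∀ x, P C (P C' x) = P C x := by
    intro C C' hC hC' hsub x
    obtain ⟨-, -, -, h4, -⟩ := hP C hC
    obtain ⟨-, -, h3', -⟩ := hP C' hC'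
    have : P C (P C' x - x) = 0 := by
      apply h4
      intro f hf
      rw [map_sub, h3' f (s.D_mono hsub hf), sub_self]
    rwa [map_sub, sub_eq_zero] at this
  have hPP' : ∀ C C' : Set X, Closed s.θ C → Closed s.θ C' → C ⊆ C' → ∀ x, P C' (P C x) = P C x := by
    intro C C' hC hC' hsub x
    obtain ⟨h1, -⟩ := hP C hC
    obtain ⟨-, h2', -⟩ := hP C' hC'
    exact h2' _ (closure_mono hsub (h1 x))
  -- the well order
  obtain ⟨r, wo, hr⟩ := Cardinal.exists_ord_eq E
  let Io : E → Set X := fun e => {x | ∃ e' : E, r e' e ∧ x = e'.1}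
  let Ic : E → Set X := fun e => insert e.1 (Io e)
  let M : E → Set X := fun e => cl s.θ (Io e)
  let M' : E → Set X := fun e => cl s.θ (Ic e)
  have hM : ∀ e, Closed s.θ (M e) := fun e => closed_cl _
  have hM' : ∀ e, Closed s.θ (M' e) := fun e => closed_cl _
  have hM0 : Closed s.θ (cl s.θ (∅ : Set X)) := closed_cl _
  have hMM' : ∀ e, M e ⊆ M' e := fun e => cl_mono (subset_insert _ _)
  have hIc : ∀ e e', r e e' → Ic e ⊆ Io e' := by
    intro e e' h x hx
    rcases hx with rfl | ⟨e'', he'', rfl⟩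
    · exact ⟨e, h, rfl⟩
    · exact ⟨e'', IsTrans.trans _ _ _ he'' h, rfl⟩
  have hcardIo : ∀ e, #(Io e) < κ := by
    intro e
    have h1 : #(Io e) ≤ #{e' : E // r e' e} := by
      let φ : {e' : E // r e' e} → Io e := fun p => ⟨p.1.1, p.1, p.2, rfl⟩
      have hφ : Function.Surjective φ := by
        rintro ⟨x, e', he', rfl⟩
        exact ⟨⟨e', he'⟩, rfl⟩
      exact mk_le_of_surjective hφ
    have h2 : #{e' : E // r e' e} < #E := by
      have := Cardinal.card_typein_lt e hr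
      rwa [Ordinal.card_typein] at this
    rw [← hE]
    exact h1.trans_lt h2
  have hcardM' : ∀ e, #(M' e) < κ := by
    intro e
    refine (mk_cl_le _).trans_lt ?_
    refine max_lt ?_ hκ
    refine (mk_insert_le).trans_lt ?_
    exact add_lt_of_lt hκ.le (hcardIo e) (one_lt_aleph0.trans hκ)
  have hcardM0 : #(cl s.θ (∅ : Set X)) < κ := by
    refine (mk_cl_le _).trans_lt ?_
    refine max_lt ?_ hκ
    simp only [mk_eq_zero]
    exact aleph0_pos.trans hκ
  -- the pieces
  let Q : Option E → (X →L[ℝ] X) := fun o => match o with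
    | none => P (cl s.θ ∅)
    | some e => P (M' e) - P (M e)
  let C : Option E → Set X := fun o => match o with
    | none => cl s.θ ∅
    | some e => M' e
  have hCc : ∀ o, #(C o) < κ := by
    rintro (_ | e)
    · exact hcardM0
    · exact hcardM' e
  have hQC : ∀ o x, Q o x ∈ closure (Q o '' C o) := by
    rintro (_ | e) x
    · obtain ⟨h1, h2, -⟩ := hP _ hM0
      have h3 : P (cl s.θ ∅) x ∈ closure (cl s.θ (∅ : Set X)) := h1 x
      have h4 : P (cl s.θ ∅) (P (cl s.θ ∅) x) = P (cl s.θ ∅) x := h2 _ h3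
      show P (cl s.θ ∅) x ∈ closure (P (cl s.θ ∅) '' (cl s.θ ∅))
      rw [← h4]
      exact (image_closure_subset_closure_image (P (cl s.θ ∅)).continuous) ⟨_, h3, rfl⟩
    · obtain ⟨h1, h2, -⟩ := hP _ (hM' e)
      have h3 : P (M' e) x ∈ closure (M' e) := h1 x
      have h4 : Q (some e) (P (M' e) x) = Q (some e) x := by
        show P (M' e) (P (M' e) x) - P (M e) (P (M' e) x) = P (M' e) x - P (M e) x
        rw [h2 _ h3, hPP _ _ (hM e) (hM' e) (hMM' e)]
      show Q (some e) x ∈ closure (Q (some e) '' (M' e))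
      rw [← h4]
      exact (image_closure_subset_closure_image (Q (some e)).continuous) ⟨_, h3, rfl⟩
  have hQA : ∀ o, ∀ a ∈ A, (1 / 2 : ℝ) • Q o a ∈ A := by
    rintro (_ | e) a ha
    · obtain ⟨-, -, -, -, -, h6, -⟩ := hP _ hM0
      have : P (cl s.θ ∅) a ∈ A := h6 a ha
      exact hG.convex.smul_mem_of_zero_mem hG.zero this ⟨by norm_num, by norm_num⟩
    · obtain ⟨-, -, -, -, -, h6, -⟩ := hP _ (hM' e)
      obtain ⟨-, -, -, -, -, h6', -⟩ := hP _ (hM e)
      have h1 := h6 a ha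
      have h2 := hG.symm _ (h6' a ha)
      have h3 := hG.convex h1 h2 (a := 1 / 2) (b := 1 / 2) (by norm_num) (by norm_num) (by norm_num)
      have h4 : (1 / 2 : ℝ) • Q (some e) a =
          (1 / 2 : ℝ) • P (M' e) a + (1 / 2 : ℝ) • -(P (M e) a) := by
        rw [← smul_add, ← sub_eq_add_neg]
        rfl
      rw [h4]
      exact h3
  have hpiece : ∀ o, ∃ K : Set X, K ⊆ closure (Q o '' A) ∧ IsCompact (toWeakSpace ℝ X '' K) ∧
      ∀ x, Q o x ∈ closure (Submodule.span ℝ K : Set X) :=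
    fun o => piece IH hG (Q o) (C o) (hCc o) (hQC o)
  choose K hKQ hKc hKs using hpiece
  -- the half scaling
  let hf : X →L[ℝ] X := (1 / 2 : ℝ) • ContinuousLinearMap.id ℝ X
  have hhf : ∀ x, hf x = (1 / 2 : ℝ) • x := fun x => by simp [hf]
  let L : Option E → Set X := fun o => hf '' (K o)
  have hLA : ∀ o, L o ⊆ A := by
    rintro o _ ⟨x, hx, rfl⟩
    have h1 := hKQ o hx
    have hcl : IsClosed {x : X | hf x ∈ A} := hG.closed.preimage hf.continuous
    refine closure_minimal ?_ hcl h1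
    rintro _ ⟨a, ha, rfl⟩
    show hf (Q o a) ∈ A
    rw [hhf]
    exact hQA o a ha
  -- finiteness
  have hfin : ∀ (f : X →L[ℝ] ℝ) (ε : ℝ), 0 < ε → {e : E | ∃ a ∈ A, ε < |f (Q (some e) a)|}.Finite := by
    intro f ε hε
    by_contra hinf
    have hinf' : {e : E | ∃ a ∈ A, ε < |f (Q (some e) a)|}.Infinite := hinf
    let u : ℕ ↪ {e : E | ∃ a ∈ A, ε < |f (Q (some e) a)|} := hinf'.natEmbedding _
    obtain ⟨g, hg⟩ := exists_increasing_or_nonincreasing_subseq r (fun n => (u n).1)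
    have hinc : ∀ m n : ℕ, m < n → r (u (g m)).1 (u (g n)).1 := by
      rcases hg with h | h
      · exact h
      · exfalso
        have hwf : WellFounded r := wo.wf
        have hdec : ∀ n : ℕ, r (u (g (n + 1))).1 (u (g n)).1 := by
          intro n
          have h1 := h n (n + 1) (Nat.lt_succ_self n)
          have h2 : (u (g n)).1 ≠ (u (g (n + 1))).1 := by
            intro heq
            have := g.injective (u.injective (Subtype.ext heq))
            omega
          rcases trichotomous_of r (u (g n)).1 (u (g (n + 1))).1 with h3 | h3 | h3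
          · exact absurd h3 h1
          · exact absurd h3 h2
          · exact h3
        exact (RelEmbedding.natGT (r := r) (fun n => (u (g n)).1) hdec).not_wellFounded hwf
    let e : ℕ → E := fun n => (u (g n)).1
    have hwit : ∀ n, ∃ a ∈ A, ε < |f (Q (some (e n)) a)| := fun n => (u (g n)).2
    have hmono : Monotone fun n => M (e n) := by
      apply monotone_nat_of_le_succ
      intro n
      apply cl_mono
      exact (subset_insert _ _).trans (hIc _ _ (hinc n (n + 1) (Nat.lt_succ_self n)))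
    let CC : Set X := ⋃ n, M (e n)
    have hCC : Closed s.θ CC := closed_iUnion hmono fun n => hM _
    obtain ⟨-, h2C, -, -, -, -, h7C⟩ := hP CC hCC
    obtain ⟨φ, hφ, hφA⟩ := h7C f (ε / 2) (by positivity)
    obtain ⟨n, hn⟩ := s.D_iUnion hmono hφ
    obtain ⟨a, ha, hlt⟩ := hwit n
    -- estimates for the two projections
    have key : ∀ D : Set X, Closed s.θ D → M (e n) ⊆ D → D ⊆ CC → |f (P D a) - φ a| ≤ ε / 2 := by
      intro D hD hsub1 hsub2
      obtain ⟨h1, -, h3, -, -, h6, -⟩ := hP D hD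
      have h4 : P CC (P D a) = P D a := h2C _ (closure_mono hsub2 (h1 a))
      have h5 := hφA (P D a) (h6 a ha)
      rw [h4, h3 φ (s.D_mono hsub1 hn)] at h5
      exact h5
    have hk1 := key (M (e n)) (hM _) (Subset.refl _) (subset_iUnion (fun n => M (e n)) n)
    have hk2 := key (M' (e n)) (hM' _) (hMM' _) (by
      refine Subset.trans ?_ (subset_iUnion (fun n => M (e n)) (n + 1))
      exact cl_mono (hIc _ _ (hinc n (n + 1) (Nat.lt_succ_self n))))
    have hQf : f (Q (some (e n)) a) = (f (P (M' (e n)) a) - φ a) - (f (P (M (e n)) a) - φ a) := by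
      show f (P (M' (e n)) a - P (M (e n)) a) = _
      rw [map_sub]
      ring
    rw [hQf] at hlt
    have := abs_sub (f (P (M' (e n)) a) - φ a) (f (P (M (e n)) a) - φ a)
    linarith
  -- the set
  refine ⟨{0} ∪ ⋃ o, L o, ?_, ?_, ?_⟩
  · rintro x (rfl | hx)
    · exact hG.zero
    · obtain ⟨o, ho⟩ := mem_iUnion.1 hx
      exact hLA o ho
  · have himg : toWeakSpace ℝ X '' ({0} ∪ ⋃ o, L o) =
        {(0 : WeakSpace ℝ X)} ∪ ⋃ o, toWeakSpace ℝ X '' L o := by
      rw [image_union, image_iUnion, image_singleton, map_zero]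
    rw [himg]
    apply compact_union
    · intro o
      exact weak_image hf (hKc o)
    · intro U hU
      obtain ⟨t, ε, hε, ht⟩ := weak_nhds hU
      have hsub : {o | ¬ toWeakSpace ℝ X '' L o ⊆ U} ⊆
          {none} ∪ some '' (⋃ f ∈ t, {e : E | ∃ a ∈ A, ε < |f (Q (some e) a)|}) := by
        rintro (_ | e) ho
        · exact Or.inl rfl
        · right
          refine ⟨e, ?_, rfl⟩
          by_contra hcon
          apply ho
          rintro _ ⟨x, ⟨k, hk, rfl⟩, rfl⟩
          apply ht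
          intro f hft
          have hall : ∀ a ∈ A, |f (Q (some e) a)| ≤ ε := by
            intro a ha
            by_contra hlt
            push Not at hlt
            apply hcon
            simp only [mem_iUnion]
            exact ⟨f, hft, a, ha, hlt⟩
          have hcl : IsClosed {x : X | |f x| ≤ ε} :=
            isClosed_le f.continuous.abs continuous_const
          have hkε : |f k| ≤ ε := by
            refine closure_minimal ?_ hcl (hKQ (some e) hk)
            rintro _ ⟨a, ha, rfl⟩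
            exact hall a ha
          rw [hhf, map_smul, smul_eq_mul, abs_mul]
          have : |(1 / 2 : ℝ)| = 1 / 2 := abs_of_pos (by norm_num)
          rw [this]
          linarith
      refine Finite.subset ?_ hsub
      refine (finite_singleton _).union (Finite.image _ ?_)
      exact (Finset.finite_toSet t).biUnion fun f _ => hfin f ε hε
  · -- density
    let Vs : Submodule ℝ X := (Submodule.span ℝ ({0} ∪ ⋃ o, L o)).topologicalClosure
    have hVcl : IsClosed (Vs : Set X) := Submodule.isClosed_topologicalClosure _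
    have hQV : ∀ o x, Q o x ∈ Vs := by
      intro o x
      have h1 : Submodule.span ℝ (K o) ≤ Vs := by
        rw [Submodule.span_le]
        intro k hk
        have h2 : hf k ∈ Submodule.span ℝ ({0} ∪ ⋃ o, L o) :=
          Submodule.subset_span (Or.inr (mem_iUnion.2 ⟨o, k, hk, rfl⟩))
        have h3 : k = (2 : ℝ) • hf k := by
          rw [hhf, smul_smul]
          norm_num
        rw [h3]
        exact Submodule.le_topologicalClosure _ (Submodule.smul_mem _ _ h2)
      exact closure_minimal (fun y hy => h1 hy) hVcl (hKs o x)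
    have hMV : ∀ e, M e ⊆ (Vs : Set X) := by
      have hwf : WellFounded r := wo.wf
      intro e
      induction e using hwf.induction with
      | _ e ih =>
        by_cases hne : ∃ e', r e' e
        · haveI : Nonempty {e' : E // r e' e} := by
            obtain ⟨e', he'⟩ := hne
            exact ⟨⟨e', he'⟩⟩
          have hsub : M e ⊆ ⋃ e' : {e' : E // r e' e}, cl s.θ (Ic e'.1) := by
            apply cl_subset_iUnion
            · intro a b
              rcases trichotomous_of r a.1 b.1 with h | h | h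
              · exact ⟨b, (hIc _ _ h).trans (subset_insert _ _), Subset.refl _⟩
              · refine ⟨b, ?_, Subset.refl _⟩
                show Ic a.1 ⊆ Ic b.1
                rw [h]
              · exact ⟨a, Subset.refl _, (hIc _ _ h).trans (subset_insert _ _)⟩
            · rintro x ⟨e', he', rfl⟩
              exact mem_iUnion.2 ⟨⟨e', he'⟩, Or.inl rfl⟩
          refine hsub.trans (iUnion_subset fun e' => ?_)
          intro x hx
          have hx' : x ∈ M' e'.1 := hx
          obtain ⟨-, h2, -⟩ := hP _ (hM' e'.1)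
          have h3 : P (M' e'.1) x = x := h2 x (subset_closure hx')
          have h4 : x = Q (some e'.1) x + P (M e'.1) x := by
            show x = (P (M' e'.1) x - P (M e'.1) x) + P (M e'.1) x
            rw [sub_add_cancel, h3]
          have h5 : P (M e'.1) x ∈ Vs := by
            obtain ⟨h1, -⟩ := hP _ (hM e'.1)
            exact closure_minimal (ih e'.1 e'.2) hVcl (h1 x)
          rw [h4]
          exact Vs.add_mem (hQV (some e'.1) x) h5
        · have hempty : Io e = ∅ := by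
            rw [eq_empty_iff_forall_notMem]
            rintro x ⟨e', he', -⟩
            exact hne ⟨e', he'⟩
          intro x hx
          have hx0 : x ∈ cl s.θ (∅ : Set X) := by
            rw [← hempty]
            exact hx
          obtain ⟨-, h2, -⟩ := hP _ hM0
          have h3 : P (cl s.θ ∅) x = x := h2 x (subset_closure hx0)
          rw [← h3]
          exact hQV none x
    have hEV : E ⊆ (Vs : Set X) := by
      intro x hx
      let e : E := ⟨x, hx⟩
      have hxM : x ∈ M' e := subset_cl _ (Or.inl rfl)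
      obtain ⟨-, h2, -⟩ := hP _ (hM' e)
      have h3 : P (M' e) x = x := h2 x (subset_closure hxM)
      have h4 : x = Q (some e) x + P (M e) x := by
        show x = (P (M' e) x - P (M e) x) + P (M e) x
        rw [sub_add_cancel, h3]
      have h5 : P (M e) x ∈ Vs := by
        obtain ⟨h1, -⟩ := hP _ (hM e)
        exact closure_minimal (hMV e) hVcl (h1 x)
      rw [h4]
      exact Vs.add_mem (hQV (some e) x) h5
    intro x
    have := closure_minimal hEV hVcl (hEd x)
    rwa [SetLike.mem_coe, ← SetLike.mem_coe, Submodule.topologicalClosure_coe] at this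

theorem concl_all (κ : Cardinal.{u}) : Concl.{u, w} κ := by
  induction κ using WellFoundedLT.induction with
  | _ κ IH =>
    intro X _ _ _ A hG ⟨E, hEd, hE⟩
    by_cases hsep : #E ≤ ℵ₀
    · have : E.Countable := Cardinal.le_aleph0_iff_set_countable.1 hsep
      exact separable_case hG ⟨E, this, hEd⟩
    · push Not at hsep
      rcases lt_or_eq_of_le hE with hlt | heq
      · exact IH _ hlt X A hG ⟨E, hEd, le_rfl⟩
      · rw [heq] at hsep
        exact main_step hsep IH hG E hEd heq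


end induction

section final

variable {X : Type u} [NormedAddCommGroup X] [NormedSpace ℝ X]

/-- The unit ball of an Asplund space is an Asplund set. -/
theorem aspSet_ball {Y : Type v} [NormedAddCommGroup Y] [NormedSpace ℝ Y]
    (hY : ∀ S : Submodule ℝ Y, TopologicalSpace.IsSeparable (S : Set Y) →
      TopologicalSpace.SeparableSpace (S →L[ℝ] ℝ)) :
    AspSet (closedBall (0 : Y) 1) := by
  intro S hS hSc
  let Z : Submodule ℝ Y := Submodule.span ℝ S
  have hsep : TopologicalSpace.IsSeparable (Z : Set Y) := hSc.isSeparable.span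
  haveI := hY Z hsep
  obtain ⟨D, hDc, hD⟩ := TopologicalSpace.exists_countable_dense (Z →L[ℝ] ℝ)
  have hext : ∀ z : Z →L[ℝ] ℝ, ∃ g : Y →L[ℝ] ℝ, ∀ x : Z, g x = z x := by
    intro z
    obtain ⟨g, hg, -⟩ := exists_extension_norm_eq Z z
    exact ⟨g, hg⟩
  choose e he using hext
  refine ⟨e '' D, hDc.image e, fun f ε hε => ?_⟩
  have hcl : (f.comp Z.subtypeL) ∈ closure D := hD (f.comp Z.subtypeL)
  obtain ⟨z, hzD, hz⟩ := (SeminormedAddCommGroup.mem_closure_iff (E := Z →L[ℝ] ℝ)).1 hcl ε hε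
  refine ⟨e z, ⟨z, hzD, rfl⟩, fun a ha => ?_⟩
  have haZ : a ∈ Z := Submodule.subset_span ha
  have h1 : e z a = z ⟨a, haZ⟩ := he z ⟨a, haZ⟩
  have h2 : f a = (f.comp Z.subtypeL) ⟨a, haZ⟩ := rfl
  have h6 : f a - e z a = (f.comp Z.subtypeL - z) ⟨a, haZ⟩ := by
    rw [h1, h2]
    rfl
  rw [h6]
  have h3 : ‖(⟨a, haZ⟩ : Z)‖ ≤ 1 := by
    have := hS ha
    rw [mem_closedBall_zero_iff] at this
    exact this
  have h4 := (f.comp Z.subtypeL - z).le_opNorm ⟨a, haZ⟩
  rw [Real.norm_eq_abs] at h4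
  calc |(f.comp Z.subtypeL - z) ⟨a, haZ⟩| ≤ ‖f.comp Z.subtypeL - z‖ * ‖(⟨a, haZ⟩ : Z)‖ := h4
    _ ≤ ‖f.comp Z.subtypeL - z‖ * 1 := by gcongr
    _ ≤ ε := by linarith


/-- The closure of the image of the unit ball of an Asplund space, in a space with Corson dual
ball. -/
theorem goodC_of_asplund {Y : Type v} [NormedAddCommGroup Y] [NormedSpace ℝ Y]
    (hY : ∀ S : Submodule ℝ Y, TopologicalSpace.IsSeparable (S : Set Y) →
      TopologicalSpace.SeparableSpace (S →L[ℝ] ℝ))
    (T : Y →L[ℝ] X) (hT : DenseRange T) (c : CorsonData.{u, w} X) :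
    GoodC.{u, w} (closure (T '' closedBall (0 : Y) 1)) := by
  have hball := aspSet_ball hY
  refine ⟨isClosed_closure, ?_, ?_, ?_, ?_, ?_, hball.image T, ⟨c⟩⟩
  · exact ((convex_closedBall _ _).linear_image T.toLinearMap).closure
  · intro a ha
    have hsub : closure (T '' closedBall (0 : Y) 1) ⊆
        (fun y : X => -y) ⁻¹' closure (T '' closedBall (0 : Y) 1) := by
      refine closure_minimal ?_ (isClosed_closure.preimage continuous_neg)
      rintro _ ⟨a, ha, rfl⟩
      show -(T a) ∈ closure (T '' closedBall (0 : Y) 1)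
      rw [← map_neg]
      exact subset_closure ⟨-a, by simpa using ha, rfl⟩
    exact hsub ha
  · exact subset_closure ⟨0, by simp, map_zero T⟩
  · refine ⟨‖T‖, fun a ha => ?_⟩
    refine closure_minimal ?_ (isClosed_le continuous_norm continuous_const) ha
    rintro _ ⟨y, hy, rfl⟩
    rw [mem_closedBall_zero_iff] at hy
    show ‖T y‖ ≤ ‖T‖
    calc ‖T y‖ ≤ ‖T‖ * ‖y‖ := T.le_opNorm y
      _ ≤ ‖T‖ * 1 := by gcongr
      _ = ‖T‖ := mul_one _
  · refine hT.mono ?_
    rintro _ ⟨y, rfl⟩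
    -- scale into the ball
    by_cases hy : ‖y‖ ≤ 1
    · exact Submodule.subset_span (subset_closure ⟨y, by simpa using hy, rfl⟩)
    · push Not at hy
      have hpos : 0 < ‖y‖ := by linarith
      have h3 : T y = ‖y‖ • T (‖y‖⁻¹ • y) := by
        rw [map_smul, smul_smul, mul_inv_cancel₀ hpos.ne', one_smul]
      rw [h3]
      refine Submodule.smul_mem _ _ (Submodule.subset_span (subset_closure ⟨_, ?_, rfl⟩))
      rw [mem_closedBall_zero_iff, norm_smul, norm_inv, norm_norm, inv_mul_cancel₀ hpos.ne']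

end final

end Pool.Agent.Helper69.WLU
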